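import Mathlib
import Pool.Agent.Helper6.ER3.Final
import Pool.Agent.Helper22.SW.BVsmall

/-! Primes of a residue class in dyadic intervals: a lower bound of the right order. -/

namespace Pool.Agent.Helper33.TW

open Finset Filter Topology Pool.Agent.Helper6.SW Pool.Agent.Helper6.ER

lemma ev_small (V : ℝ) (ε : ℝ) (hε : 0 < ε) : ∀ᶠ X : ℝ in atTop,
    (V + Real.log X) ^ 1 * (Real.exp V / X) *
      (2 * Real.sqrt (Real.exp V * X) * (V + Real.log X)) ≤ ε := by
  have h1 : Tendsto (fun X : ℝ => (V + Real.log X) / X ^ (1 / 8 : ℝ)) atTop (𝓝 0) := by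
    have ha : Tendsto (fun X : ℝ => V / X ^ (1 / 8 : ℝ)) atTop (𝓝 0) :=
      Tendsto.const_div_atTop (tendsto_rpow_atTop (by norm_num)) V
    have hb : Tendsto (fun X : ℝ => Real.log X / X ^ (1 / 8 : ℝ)) atTop (𝓝 0) :=
      (isLittleO_log_rpow_atTop (by norm_num : (0 : ℝ) < 1 / 8)).tendsto_div_nhds_zero
    have := ha.add hb
    rw [add_zero] at this
    refine this.congr fun X => ?_
    ring
  set K : ℝ := Real.exp V * (2 * Real.sqrt (Real.exp V)) with hK
  have hKpos : 0 < K := by positivity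
  have h2 : Tendsto (fun X : ℝ => K * (((V + Real.log X) / X ^ (1 / 8 : ℝ)) ^ 2 *
      (1 / X ^ (1 / 4 : ℝ)))) atTop (𝓝 0) := by
    have h3 : Tendsto (fun X : ℝ => 1 / X ^ (1 / 4 : ℝ)) atTop (𝓝 0) :=
      Tendsto.const_div_atTop (tendsto_rpow_atTop (by norm_num)) 1
    have h4 := ((h1.pow 2).mul h3).const_mul K
    simpa using h4
  have h5 := h2.eventually (gt_mem_nhds hε)
  filter_upwards [h5, eventually_gt_atTop 0] with X hX hX0
  refine le_trans (le_of_eq ?_) hX.le
  rw [Real.sqrt_mul (Real.exp_pos V).le, hK, div_pow, Real.sqrt_eq_rpow X]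
  have e1 : (X ^ (1 / 8 : ℝ)) ^ 2 = X ^ (1 / 4 : ℝ) := by
    rw [← Real.rpow_natCast, ← Real.rpow_mul hX0.le]
    norm_num
  have e2 : X = X ^ (1 / 4 : ℝ) * X ^ (1 / 4 : ℝ) * X ^ (1 / 2 : ℝ) := by
    rw [← Real.rpow_add hX0, ← Real.rpow_add hX0]
    norm_num
  have p1 : (0 : ℝ) < X ^ (1 / 4 : ℝ) := Real.rpow_pos_of_pos hX0 _
  have p2 : (0 : ℝ) < X ^ (1 / 2 : ℝ) := Real.rpow_pos_of_pos hX0 _
  rw [e1]
  have e3 : Real.exp V / X = Real.exp V / (X ^ (1 / 4 : ℝ) * X ^ (1 / 4 : ℝ) * X ^ (1 / 2 : ℝ)) := by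
    rw [← e2]
  rw [e3]
  field_simp

/-- the weight vanishes outside the window -/
lemma om_ne {V : ℝ} (hV : 0 < V) (k : ℕ) {X : ℝ} (hX : 0 < X) {n : ℕ} (hn : 1 ≤ n)
    (h : om V k X n ≠ 0) : Real.exp (-V) * X < n ∧ (n : ℝ) < Real.exp V * X := by
  have hn0 : (0 : ℝ) < n := by exact_mod_cast hn
  have h1 : ¬ V ≤ |Real.log n - Real.log X| := by
    intro h2
    apply h
    unfold om
    rw [Helper22.SW.tent_eq_zero hV h2, mul_zero]
  rw [not_le, abs_lt] at h1
  constructor
  · rw [← Real.log_lt_log_iff (by positivity) hn0, Real.log_mul (Real.exp_pos _).ne' hX.ne',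
      Real.log_exp]
    linarith [h1.1]
  · rw [← Real.log_lt_log_iff hn0 (by positivity), Real.log_mul (Real.exp_pos _).ne' hX.ne',
      Real.log_exp]
    linarith [h1.2]

/-- primes `≡ b (mod d)` in `(x/2, x]` -/
theorem primesAP (d b : ℕ) (hd : 1 ≤ d) (hb : Nat.Coprime b d) :
    ∃ c : ℝ, 0 < c ∧ ∃ x₀ : ℕ, ∀ x : ℕ, x₀ ≤ x →
      c * x / Real.log x ≤
        (((Finset.Ioc (x / 2) x).filter (fun l => l.Prime ∧ l ≡ b [MOD d])).card : ℝ) := by
  classical
  have hd0 : (0 : ℝ) < d := by exact_mod_cast hd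
  set V : ℝ := Real.log 2 / 2 with hVdef
  have hV : 0 < V := by
    have := Real.log_pos (by norm_num : (1 : ℝ) < 2)
    positivity
  obtain ⟨c, C, X₁, hc, hC, hM⟩ := Helper6.ER3.massAll V 1 hV
  obtain ⟨X₂, hSW⟩ := Helper6.ER2.siegelWalfisz V 1 1 hV
  have hphi : (0 : ℝ) < d.totient := by exact_mod_cast Nat.totient_pos.mpr (by omega)
  set c' : ℝ := c / (2 * d.totient) with hc'
  have hc'0 : 0 < c' := by positivity
  -- eventual conditions in `X`
  have hlog : Tendsto (fun X : ℝ => Real.log X) atTop atTop := Real.tendsto_log_atTop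
  have hev : ∀ᶠ X : ℝ in atTop, X₁ ≤ X ∧ X₂ ≤ X ∧ 3 ≤ X ∧ (d : ℝ) ≤ Real.log X ∧
      (d : ℝ) < Real.exp (-V) * X ∧
      (V + Real.log X) ^ 1 * (Real.exp V / X) *
        (2 * Real.sqrt (Real.exp V * X) * (V + Real.log X)) ≤ 1 ∧
      (d : ℝ) * d * (Real.sqrt (Real.log X) + 1) ≤ (c / (2 * d.totient)) * Real.log X ∧
      1 ≤ Real.log X := by
    have e1 : ∀ᶠ X : ℝ in atTop, (d : ℝ) < Real.exp (-V) * X := by
      have : Tendsto (fun X : ℝ => Real.exp (-V) * X) atTop atTop :=
        tendsto_id.const_mul_atTop (Real.exp_pos _)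
      exact this.eventually_gt_atTop _
    have e2 : ∀ᶠ X : ℝ in atTop, (d : ℝ) * d * (Real.sqrt (Real.log X) + 1) ≤
        (c / (2 * d.totient)) * Real.log X := by
      have h1 : ∀ᶠ L : ℝ in atTop, (d : ℝ) * d * (Real.sqrt L + 1) ≤
          (c / (2 * d.totient)) * L := by
        have h2 : Tendsto (fun L : ℝ => ((d : ℝ) * d) * (Real.sqrt L / L + 1 / L)) atTop (𝓝 0) := by
          have a1 : Tendsto (fun L : ℝ => Real.sqrt L / L) atTop (𝓝 0) := by
            have : Tendsto (fun L : ℝ => 1 / Real.sqrt L) atTop (𝓝 0) :=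
              Tendsto.const_div_atTop (Real.tendsto_sqrt_atTop) 1
            refine this.congr' ?_
            filter_upwards [eventually_gt_atTop 0] with L hL
            rw [Real.sqrt_div_self']
          have a2 : Tendsto (fun L : ℝ => 1 / L) atTop (𝓝 0) :=
            Tendsto.const_div_atTop tendsto_id 1
          have := (a1.add a2).const_mul ((d : ℝ) * d)
          simpa using this
        have h3 := h2.eventually (gt_mem_nhds hc'0)
        filter_upwards [h3, eventually_gt_atTop 0] with L hL hL0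
        have h4 : (d : ℝ) * d * (Real.sqrt L + 1) = ((d : ℝ) * d * (Real.sqrt L / L + 1 / L)) * L := by
          field_simp
        rw [h4]
        exact mul_le_mul_of_nonneg_right hL.le hL0.le
      exact hlog.eventually h1
    filter_upwards [eventually_ge_atTop X₁, eventually_ge_atTop X₂, eventually_ge_atTop (3 : ℝ),
      hlog.eventually_ge_atTop (d : ℝ), e1, ev_small V 1 one_pos, e2,
      hlog.eventually_ge_atTop (1 : ℝ)] with X a b c d e f g h
    exact ⟨a, b, c, d, e, f, g, h⟩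
  have hexpV : Real.exp V * Real.exp (-V) = 1 := by rw [← Real.exp_add]; simp
  have hexp2 : Real.exp (-V) * Real.exp (-V) = 1 / 2 := by
    rw [← Real.exp_add, hVdef, show -(Real.log 2 / 2) + -(Real.log 2 / 2) = -Real.log 2 by ring,
      Real.exp_neg, Real.exp_log (by norm_num)]
    norm_num
  -- transfer to `x = exp V * X`
  have hx : ∀ᶠ x : ℕ in atTop, 2 ≤ x ∧
      (X₁ ≤ Real.exp (-V) * x ∧ X₂ ≤ Real.exp (-V) * x ∧ 3 ≤ Real.exp (-V) * x ∧
      (d : ℝ) ≤ Real.log (Real.exp (-V) * x) ∧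
      (d : ℝ) < Real.exp (-V) * (Real.exp (-V) * x) ∧
      (V + Real.log (Real.exp (-V) * x)) ^ 1 * (Real.exp V / (Real.exp (-V) * x)) *
        (2 * Real.sqrt (Real.exp V * (Real.exp (-V) * x)) *
          (V + Real.log (Real.exp (-V) * x))) ≤ 1 ∧
      (d : ℝ) * d * (Real.sqrt (Real.log (Real.exp (-V) * x)) + 1) ≤
        (c / (2 * d.totient)) * Real.log (Real.exp (-V) * x) ∧
      1 ≤ Real.log (Real.exp (-V) * x)) := by
    have h1 : Tendsto (fun x : ℕ => Real.exp (-V) * (x : ℝ)) atTop atTop :=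
      tendsto_natCast_atTop_atTop.const_mul_atTop (Real.exp_pos _)
    exact (eventually_ge_atTop 2).and (h1.eventually hev)
  obtain ⟨x₀, hx₀⟩ := eventually_atTop.1 hx
  refine ⟨c' * Real.exp (-V) / C, by positivity, x₀, ?_⟩
  intro x hxx
  obtain ⟨hx2, g1, g2, g3, g4, g5, g6, g7, g8⟩ := hx₀ x hxx
  set X : ℝ := Real.exp (-V) * x with hX
  have hx0 : (0 : ℝ) < x := by
    have : (2 : ℝ) ≤ x := by exact_mod_cast hx2
    linarith
  have hX0 : 0 < X := by positivity
  have hX1 : 1 < X := by linarith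
  have hEX : Real.exp V * X = x := by
    rw [hX, ← mul_assoc, hexpV, one_mul]
  obtain ⟨hM1, hM2⟩ := hM X g1
  have hL0 : 0 < Real.log X := by linarith
  have hom : ∀ p ∈ PX V X, ¬ Nat.Coprime p d → om V 1 X p = 0 := by
    intro p hp hpd
    by_contra hne
    have hpp : p.Prime := (Finset.mem_filter.1 hp).2
    have hdvd : p ∣ d := by
      by_contra hnd
      exact hpd ((Nat.Prime.coprime_iff_not_dvd hpp).2 hnd)
    have h1 := (hM2 p hp hne).1
    have h2 : (p : ℝ) ≤ d := by exact_mod_cast Nat.le_of_dvd (by omega) hdvd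
    linarith
  have hEW := Helper22.SW.EW_le (V := V) (X := X) (k := 1) hd hb hom
  have hsum := Helper22.SW.sum_ThW_le (V := V) (X := X) (k := 1) hd hom
  have hpsi : ∑ f ∈ d.divisors.erase 1, ∑ ψ ∈ prim f, ‖ThW V 1 X ψ‖ ≤
      (d : ℝ) * d * (Real.sqrt (Real.log X) + 1) := by
    have h1 : ∀ f ∈ d.divisors.erase 1, ∑ ψ ∈ prim f, ‖ThW V 1 X ψ‖ ≤
        (d : ℝ) * (Real.sqrt (Real.log X) + 1) := by
      intro f hf
      rw [Finset.mem_erase, Nat.mem_divisors] at hf
      obtain ⟨hf1, hfd, hdne⟩ := hf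
      have hfpos : 0 < f := Nat.pos_of_dvd_of_pos hfd (by omega)
      have hNe : NeZero f := ⟨by omega⟩
      have hfle : f ≤ d := Nat.le_of_dvd (by omega) hfd
      have h2 : ∀ ψ ∈ prim f, ‖ThW V 1 X ψ‖ ≤ Real.sqrt (Real.log X) + 1 := by
        intro ψ hψ
        have h3 := Helper22.SW.norm_ThW_sub hV 1 hX1 ψ
        have hne : ψ ≠ 1 := by
          intro h1
          have hp := mem_prim.1 hψ
          have hc1 : ψ.conductor = f := hp
          rw [h1, DirichletCharacter.conductor_one] at hc1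
          exact hf1 hc1.symm
        have h4 := hSW X g2 f ψ (mem_prim.1 hψ) hne (by
          rw [Real.rpow_one]
          have : (f : ℝ) ≤ d := by exact_mod_cast hfle
          linarith)
        linarith
      calc ∑ ψ ∈ prim f, ‖ThW V 1 X ψ‖ ≤ ∑ ψ ∈ prim f, (Real.sqrt (Real.log X) + 1) :=
            Finset.sum_le_sum h2
        _ = ((prim f).card : ℝ) * (Real.sqrt (Real.log X) + 1) := by
            rw [Finset.sum_const, nsmul_eq_mul]
        _ ≤ (d : ℝ) * (Real.sqrt (Real.log X) + 1) := by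
            apply mul_le_mul_of_nonneg_right _ (by positivity)
            have h5 := Helper22.SW.card_prim_le (f := f) hfpos
            have h6 : (prim f).card ≤ d := h5.trans ((Nat.totient_le f).trans hfle)
            exact_mod_cast h6
    calc _ ≤ ∑ f ∈ d.divisors.erase 1, (d : ℝ) * (Real.sqrt (Real.log X) + 1) :=
          Finset.sum_le_sum h1
      _ = ((d.divisors.erase 1).card : ℝ) * ((d : ℝ) * (Real.sqrt (Real.log X) + 1)) := by
          rw [Finset.sum_const, nsmul_eq_mul]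
      _ ≤ (d : ℝ) * ((d : ℝ) * (Real.sqrt (Real.log X) + 1)) := by
          apply mul_le_mul_of_nonneg_right _ (by positivity)
          have h7 : (d.divisors.erase 1).card ≤ d :=
            (Finset.card_erase_le).trans (Nat.card_divisors_le_self d)
          exact_mod_cast h7
      _ = _ := by ring
  have hEW2 : |EW V 1 X d b| ≤ (1 / (d.totient : ℝ)) * ((c / (2 * d.totient)) * Real.log X) := by
    refine hEW.trans ?_
    apply mul_le_mul_of_nonneg_left _ (by positivity)
    exact hsum.trans (hpsi.trans g7)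
  have hphi1 : (1 : ℝ) ≤ d.totient := by
    exact_mod_cast Nat.totient_pos.mpr (by omega : 0 < d)
  have hEW3 : |EW V 1 X d b| ≤ (c / (2 * d.totient)) * Real.log X := by
    refine hEW2.trans ?_
    have : 1 / (d.totient : ℝ) ≤ 1 := by
      rw [div_le_one hphi]; exact hphi1
    have h0 : 0 ≤ (c / (2 * (d.totient : ℝ))) * Real.log X := by positivity
    calc _ ≤ 1 * ((c / (2 * d.totient)) * Real.log X) := mul_le_mul_of_nonneg_right this h0
      _ = _ := one_mul _
  -- the weighted sum over the class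
  set S : ℝ := ∑ p ∈ (PX V X).filter (fun p => p ≡ b [MOD d]), Real.log p * om V 1 X p with hS
  have hSlow : c' * Real.log X ≤ S := by
    have h1 : EW V 1 X d b = S - Mass V 1 X / d.totient := rfl
    rw [h1] at hEW3
    have h2 := (abs_le.1 hEW3).1
    have h3 : c * Real.log X / d.totient ≤ Mass V 1 X / d.totient := by
      apply div_le_div_of_nonneg_right _ hphi.le
      rwa [pow_one] at hM1
    have h4 : c * Real.log X / d.totient = (c / (2 * d.totient)) * Real.log X + c' * Real.log X := by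
      rw [hc']; field_simp; ring
    linarith
  set T : Finset ℕ := (Finset.Ioc (x / 2) x).filter (fun l => l.Prime ∧ l ≡ b [MOD d]) with hT
  have hSup : S ≤ (T.card : ℝ) * (C * (Real.log X) ^ 2 / X) := by
    have h1 : S = ∑ p ∈ ((PX V X).filter (fun p => p ≡ b [MOD d])).filter
        (fun p => om V 1 X p ≠ 0), Real.log p * om V 1 X p := by
      rw [hS]
      symm
      rw [Finset.sum_filter_of_ne]
      intro p _ hne h0
      apply hne
      rw [h0, mul_zero]
    rw [h1]
    have h2 : ((PX V X).filter (fun p => p ≡ b [MOD d])).filter (fun p => om V 1 X p ≠ 0) ⊆ T := by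
      intro p hp
      rw [Finset.mem_filter, Finset.mem_filter] at hp
      obtain ⟨⟨hp1, hp2⟩, hp3⟩ := hp
      have hpp : p.Prime := (Finset.mem_filter.1 hp1).2
      obtain ⟨h4, h5⟩ := om_ne hV 1 hX0 hpp.one_lt.le hp3
      rw [hEX] at h5
      rw [hX, ← mul_assoc, hexp2] at h4
      rw [hT, Finset.mem_filter, Finset.mem_Ioc]
      refine ⟨⟨?_, ?_⟩, hpp, hp2⟩
      · have h6 : (x : ℝ) < 2 * p := by linarith
        have h7 : x < 2 * p := by exact_mod_cast h6
        omega
      · have : p < x := by exact_mod_cast h5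
        omega
    calc _ ≤ ∑ p ∈ ((PX V X).filter (fun p => p ≡ b [MOD d])).filter
          (fun p => om V 1 X p ≠ 0), (C * (Real.log X) ^ 2 / X) := by
          refine Finset.sum_le_sum fun p hp => ?_
          rw [Finset.mem_filter, Finset.mem_filter] at hp
          exact (hM2 p hp.1.1 hp.2).2
      _ = ((((PX V X).filter (fun p => p ≡ b [MOD d])).filter
          (fun p => om V 1 X p ≠ 0)).card : ℝ) * (C * (Real.log X) ^ 2 / X) := by
          rw [Finset.sum_const, nsmul_eq_mul]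
      _ ≤ _ := by
          apply mul_le_mul_of_nonneg_right _ (by positivity)
          exact_mod_cast Finset.card_le_card h2
  have h8 : c' * Real.log X ≤ (T.card : ℝ) * (C * (Real.log X) ^ 2 / X) := hSlow.trans hSup
  have h9 : c' * X / (C * Real.log X) ≤ (T.card : ℝ) := by
    rw [div_le_iff₀ (by positivity)]
    have h10 : (T.card : ℝ) * (C * (Real.log X) ^ 2 / X) =
        ((T.card : ℝ) * (C * Real.log X)) * (Real.log X / X) := by
      field_simp
    rw [h10] at h8
    have h11 : c' * Real.log X = (c' * X) * (Real.log X / X) := by field_simp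
    rw [h11] at h8
    exact le_of_mul_le_mul_right h8 (by positivity)
  refine le_trans ?_ h9
  have hlx : Real.log X ≤ Real.log x := by
    apply Real.log_le_log hX0
    rw [hX]
    have : Real.exp (-V) ≤ 1 := Real.exp_le_one_iff.2 (by linarith)
    calc Real.exp (-V) * (x : ℝ) ≤ 1 * x := mul_le_mul_of_nonneg_right this hx0.le
      _ = x := one_mul _
  have h12 : c' * Real.exp (-V) / C * x / Real.log x = c' * X / (C * Real.log x) := by
    rw [hX]
    field_simp
  rw [h12]
  apply div_le_div_of_nonneg_left (by positivity) (by positivity)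
  exact mul_le_mul_of_nonneg_left hlx hC.le

/-- primes `≡ 1 (mod 4)` in `(x/2, x]` -/
theorem primes4 : ∃ c : ℝ, 0 < c ∧ ∃ x₀ : ℕ, ∀ x : ℕ, x₀ ≤ x →
    c * x / Real.log x ≤
      (((Finset.Ioc (x / 2) x).filter (fun l => l.Prime ∧ l % 4 = 1)).card : ℝ) := by
  obtain ⟨c, hc, x₀, h⟩ := primesAP 4 1 (by norm_num) (by norm_num)
  refine ⟨c, hc, x₀, fun x hx => ?_⟩
  have := h x hx
  simpa [Nat.ModEq] using this

/-- primes `≡ 1 (mod 3)` in `(x/2, x]` -/
theorem primes3 : ∃ c : ℝ, 0 < c ∧ ∃ x₀ : ℕ, ∀ x : ℕ, x₀ ≤ x →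
    c * x / Real.log x ≤
      (((Finset.Ioc (x / 2) x).filter (fun l => l.Prime ∧ l % 3 = 1)).card : ℝ) := by
  obtain ⟨c, hc, x₀, h⟩ := primesAP 3 1 (by norm_num) (by norm_num)
  refine ⟨c, hc, x₀, fun x hx => ?_⟩
  have := h x hx
  simpa [Nat.ModEq] using this

end Pool.Agent.Helper33.TW
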