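import Pool.Agent.Helper19.TW.Rank4

/-! The conic family: if `r^2+rs+s^2 = -a k^2`, the form `F = q G` of degree 8 and three points with
second coordinate `1/q^2` on `F y^2 = x^3+ax+b`. -/

namespace Pool.Agent.Helper33.TW

open Pool.Agent.Helper19.TW

/-- the norm form -/
def QQ (u v : ℤ) : ℤ := u ^ 2 + u * v + v ^ 2

/-- first quadratic form -/
def N1 (r s u v : ℤ) : ℤ := r * (u ^ 2 - v ^ 2) - s * (2 * u * v + v ^ 2)

/-- second quadratic form -/
def N2 (r s u v : ℤ) : ℤ :=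
  r * (2 * u * v + v ^ 2) + s * (u ^ 2 - v ^ 2) + s * (2 * u * v + v ^ 2)

/-- the common denominator -/
def qq (k u v : ℤ) : ℤ := k * QQ u v

/-- the form of degree 6 -/
def GG (b r s k u v : ℤ) : ℤ :=
  -(N1 r s u v * N2 r s u v * (N1 r s u v + N2 r s u v)) + b * qq k u v ^ 3

/-- the form of degree 8 -/
def FB (b r s k u v : ℤ) : ℤ := qq k u v * GG b r s k u v

variable {a b r s k u v : ℤ}

lemma norm_N : N1 r s u v ^ 2 + N1 r s u v * N2 r s u v + N2 r s u v ^ 2 =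
    (r ^ 2 + r * s + s ^ 2) * QQ u v ^ 2 := by
  simp only [N1, N2, QQ]; ring

lemma norm_Nq (h : r ^ 2 + r * s + s ^ 2 = -a * k ^ 2) :
    N1 r s u v ^ 2 + N1 r s u v * N2 r s u v + N2 r s u v ^ 2 = -a * qq k u v ^ 2 := by
  rw [norm_N, h]; simp only [qq]; ring

lemma GG_one (h : r ^ 2 + r * s + s ^ 2 = -a * k ^ 2) :
    GG b r s k u v = N1 r s u v ^ 3 + a * N1 r s u v * qq k u v ^ 2 + b * qq k u v ^ 3 := by
  have := norm_Nq (u := u) (v := v) h
  simp only [GG]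
  linear_combination (-N1 r s u v) * this

lemma GG_two (h : r ^ 2 + r * s + s ^ 2 = -a * k ^ 2) :
    GG b r s k u v = N2 r s u v ^ 3 + a * N2 r s u v * qq k u v ^ 2 + b * qq k u v ^ 3 := by
  have := norm_Nq (u := u) (v := v) h
  simp only [GG]
  linear_combination (-N2 r s u v) * this

/-- discriminant identity -/
lemma disc_id (h : r ^ 2 + r * s + s ^ 2 = -a * k ^ 2) :
    ((N1 r s u v - N2 r s u v) * (2 * N1 r s u v + N2 r s u v) *
      (N1 r s u v + 2 * N2 r s u v)) ^ 2 =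
      -(4 * a ^ 3 * qq k u v ^ 6) - 27 * (b * qq k u v ^ 3 - GG b r s k u v) ^ 2 := by
  have h1 := norm_Nq (u := u) (v := v) h
  have h2 : b * qq k u v ^ 3 - GG b r s k u v =
      N1 r s u v * N2 r s u v * (N1 r s u v + N2 r s u v) := by
    simp only [GG]; ring
  rw [h2]
  generalize N1 r s u v = x at *
  generalize N2 r s u v = y at *
  generalize qq k u v = q at *
  have e : ((x - y) * (2 * x + y) * (x + 2 * y)) ^ 2 =
      4 * (x ^ 2 + x * y + y ^ 2) ^ 3 - 27 * (x * y * (x + y)) ^ 2 := by ring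
  rw [e, h1]; ring

/-- a prime which divides `G` exactly once and is good otherwise -/
structure GoodB (a b r s k : ℤ) (p : ℕ) (u v : ℤ) : Prop where
  hD : ¬ (p : ℤ) ∣ 4 * a ^ 3 + 27 * b ^ 2
  hq : ¬ (p : ℤ) ∣ qq k u v
  h1 : (p : ℤ) ∣ GG b r s k u v
  h2 : ¬ (p : ℤ) ^ 2 ∣ GG b r s k u v

lemma dprod (h : r ^ 2 + r * s + s ^ 2 = -a * k ^ 2) {p : ℕ} (hp : p.Prime)
    (hD : ¬ (p : ℤ) ∣ 4 * a ^ 3 + 27 * b ^ 2) (hq : ¬ (p : ℤ) ∣ qq k u v)
    (h1 : (p : ℤ) ∣ GG b r s k u v) :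
    ¬ (p : ℤ) ∣ (N1 r s u v - N2 r s u v) * (2 * N1 r s u v + N2 r s u v) *
      (N1 r s u v + 2 * N2 r s u v) := by
  have hpI : Prime (p : ℤ) := Nat.prime_iff_prime_int.1 hp
  intro hd
  have e := disc_id (b := b) (u := u) (v := v) h
  have h3 : (p : ℤ) ∣ qq k u v ^ 6 * (4 * a ^ 3 + 27 * b ^ 2) := by
    have e2 : qq k u v ^ 6 * (4 * a ^ 3 + 27 * b ^ 2) =
        GG b r s k u v * (27 * (2 * b * qq k u v ^ 3 - GG b r s k u v)) -
        ((N1 r s u v - N2 r s u v) * (2 * N1 r s u v + N2 r s u v) *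
          (N1 r s u v + 2 * N2 r s u v)) ^ 2 := by
      rw [e]; ring
    rw [e2]
    exact dvd_sub (Dvd.dvd.mul_right h1 _) (dvd_pow hd two_ne_zero)
  rcases hpI.dvd_or_dvd h3 with h4 | h4
  · exact hq (hpI.dvd_of_dvd_pow h4)
  · exact hD h4

lemma norm_one' {p : ℕ} [hp : Fact p.Prime] {z : ℤ} (h : ¬ (p : ℤ) ∣ z) :
    padicNorm p (z : ℚ) = 1 :=
  (padicNorm.int_eq_one_iff z).2 h

lemma GoodB.norm_G {p : ℕ} [hp : Fact p.Prime] (h : GoodB a b r s k p u v) :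
    padicNorm p (GG b r s k u v : ℚ) = (p : ℚ)⁻¹ := by
  obtain ⟨j, hj⟩ := h.h1
  have hj' : ¬ (p : ℤ) ∣ j := by
    rintro ⟨i, hi⟩
    apply h.h2
    exact ⟨i, by rw [hj, hi]; ring⟩
  rw [hj]
  push_cast
  rw [padicNorm.mul, norm_one' hj', mul_one, padicNorm.padicNorm_p_of_prime]

lemma GoodB.norm_F {p : ℕ} [hp : Fact p.Prime] (h : GoodB a b r s k p u v) :
    padicNorm p (FB b r s k u v : ℚ) = (p : ℚ)⁻¹ := by
  simp only [FB]
  push_cast
  rw [padicNorm.mul, norm_one' h.hq, h.norm_G, one_mul]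

lemma eq1 (h : r ^ 2 + r * s + s ^ 2 = -a * k ^ 2) (hq : qq k u v ≠ 0) :
    (FB b r s k u v : ℚ) * (1 / (qq k u v : ℚ) ^ 2) ^ 2 =
      ((N1 r s u v : ℚ) / qq k u v) ^ 3 + a * ((N1 r s u v : ℚ) / qq k u v) + b := by
  have hq' : (qq k u v : ℚ) ≠ 0 := by exact_mod_cast hq
  simp only [FB]
  rw [GG_one h]
  push_cast
  field_simp

lemma eq2 (h : r ^ 2 + r * s + s ^ 2 = -a * k ^ 2) (hq : qq k u v ≠ 0) :
    (FB b r s k u v : ℚ) * (1 / (qq k u v : ℚ) ^ 2) ^ 2 =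
      ((N2 r s u v : ℚ) / qq k u v) ^ 3 + a * ((N2 r s u v : ℚ) / qq k u v) + b := by
  have hq' : (qq k u v : ℚ) ≠ 0 := by exact_mod_cast hq
  simp only [FB]
  rw [GG_two h]
  push_cast
  field_simp

/-- the rank part for one member of the family -/
theorem conic_rank {p : ℕ} [hp : Fact p.Prime] (hn : r ^ 2 + r * s + s ^ 2 = -a * k ^ 2)
    (h : GoodB a b r s k p u v) (hroot : ∀ r : ℚ, r ^ 3 + a * r + b ≠ 0) {d : ℤ} {m : ℚ}
    (hm : (FB b r s k u v : ℚ) = d * m ^ 2) (hN : padicNorm p m = 1) :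
    ∃ P Q : (tw a b d).toAffine.Point, LinearIndependent ℤ ![P, Q] := by
  have hpI : Prime (p : ℤ) := Nat.prime_iff_prime_int.1 hp.out
  have hq0 : qq k u v ≠ 0 := by
    intro h0
    exact h.hq (h0 ▸ dvd_zero _)
  have hd : padicNorm p (d : ℚ) = (p : ℚ)⁻¹ := by
    have := h.norm_F
    rw [hm, padicNorm.mul, pow_two, padicNorm.mul, hN] at this
    simpa using this
  have hY : padicNorm p (1 / (qq k u v : ℚ) ^ 2) = 1 := by
    rw [padicNorm.div, padicNorm.one, pow_two, padicNorm.mul, norm_one' h.hq]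
    norm_num
  have hX : ∀ z : ℤ, padicNorm p ((z : ℚ) / qq k u v) ≤ 1 := by
    intro z
    rw [padicNorm.div, norm_one' h.hq, div_one]
    exact padicNorm.of_int z
  have hdiff : ¬ (p : ℤ) ∣ N1 r s u v - N2 r s u v := by
    intro h0
    exact dprod hn hp.out h.hD h.hq h.h1 (Dvd.dvd.mul_right (Dvd.dvd.mul_right h0 _) _)
  have hXX : padicNorm p ((N1 r s u v : ℚ) / qq k u v - (N2 r s u v : ℚ) / qq k u v) = 1 := by
    rw [← sub_div, padicNorm.div, norm_one' h.hq, div_one]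
    have := norm_one' hdiff
    push_cast at this
    exact this
  have e1 := eq1 (b := b) hn hq0
  have e2 := eq2 (b := b) hn hq0
  rw [hm] at e1 e2
  refine rank_two (x₁ := (N1 r s u v : ℚ) / qq k u v) (x₂ := (N2 r s u v : ℚ) / qq k u v)
    (y₁ := m * (1 / (qq k u v : ℚ) ^ 2)) (y₂ := m * (1 / (qq k u v : ℚ) ^ 2))
    hd (norm_one' h.hD) hroot (by rw [← e1]; ring) (by rw [← e2]; ring) (hX _) (hX _) ?_ ?_ hXX
  · rw [padicNorm.mul, hN, hY]; norm_num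
  · rw [padicNorm.mul, hN, hY]; norm_num

end Pool.Agent.Helper33.TW
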