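import Pool.Agent.Helper33.TW.Conic

/-! The auxiliary prime and residue class for the conic family. -/

namespace Pool.Agent.Helper33.TW

open Pool.Agent.Helper19.TW Filter Topology

variable {a b r s k u v : ℤ}

lemma QQ_pos (h : u ≠ 0 ∨ v ≠ 0) : 0 < QQ u v := by
  have e : 4 * QQ u v = (2 * u + v) ^ 2 + 3 * v ^ 2 := by simp only [QQ]; ring
  have h1 : 0 < (2 * u + v) ^ 2 + 3 * v ^ 2 := by
    rcases eq_or_ne v 0 with hv | hv
    · subst hv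
      have hu : u ≠ 0 := by tauto
      have : 0 < u ^ 2 := by positivity
      nlinarith
    · have h2 : 0 < v ^ 2 := by positivity
      nlinarith [sq_nonneg (2 * u + v)]
  linarith

lemma qq_ne (hk : k ≠ 0) (h : u ≠ 0 ∨ v ≠ 0) : qq k u v ≠ 0 :=
  mul_ne_zero hk (QQ_pos h).ne'

lemma GG_ne (hn : r ^ 2 + r * s + s ^ 2 = -a * k ^ 2) (hk : k ≠ 0)
    (hroot : ∀ r : ℚ, r ^ 3 + a * r + b ≠ 0) (h : u ≠ 0 ∨ v ≠ 0) : GG b r s k u v ≠ 0 := by
  intro h0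
  have hq := qq_ne hk h
  have hq' : (qq k u v : ℚ) ≠ 0 := by exact_mod_cast hq
  apply hroot ((N1 r s u v : ℚ) / qq k u v)
  have e := eq1 (b := b) (u := u) (v := v) hn hq
  rw [← e]
  simp [FB, h0]

/-- `G` is prime to the primes dividing the norm form -/
lemma G_unit {p : ℕ} (hp : p.Prime) (h3 : ¬ (p : ℤ) ∣ 3) (hN : ¬ (p : ℤ) ∣ r ^ 2 + r * s + s ^ 2)
    (hQ : (p : ℤ) ∣ QQ u v) (huv : ¬ ((p : ℤ) ∣ u ∧ (p : ℤ) ∣ v)) :
    ¬ (p : ℤ) ∣ GG b r s k u v := by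
  have hpI : Prime (p : ℤ) := Nat.prime_iff_prime_int.1 hp
  intro hG
  have hz : (p : ℤ) ∣ N1 r s u v * N2 r s u v * (N1 r s u v + N2 r s u v) := by
    have e : N1 r s u v * N2 r s u v * (N1 r s u v + N2 r s u v) =
        b * (k * QQ u v) ^ 3 - GG b r s k u v := by simp only [GG, qq]; ring
    rw [e]
    exact dvd_sub (Dvd.dvd.mul_left (dvd_pow (Dvd.dvd.mul_left hQ _) three_ne_zero) _) hG
  have hnn : (p : ℤ) ∣ N1 r s u v ^ 2 + N1 r s u v * N2 r s u v + N2 r s u v ^ 2 := by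
    rw [norm_N]
    exact Dvd.dvd.mul_left (dvd_pow hQ two_ne_zero) _
  have hboth : (p : ℤ) ∣ N1 r s u v ∧ (p : ℤ) ∣ N2 r s u v := by
    generalize N1 r s u v = x at *
    generalize N2 r s u v = y at *
    rcases hpI.dvd_or_dvd hz with h4 | h4
    · rcases hpI.dvd_or_dvd h4 with h5 | h5
      · refine ⟨h5, hpI.dvd_of_dvd_pow (n := 2) ?_⟩
        have e : y ^ 2 = (x ^ 2 + x * y + y ^ 2) - x * (x + y) := by ring
        rw [e]; exact dvd_sub hnn (Dvd.dvd.mul_right h5 _)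
      · refine ⟨hpI.dvd_of_dvd_pow (n := 2) ?_, h5⟩
        have e : x ^ 2 = (x ^ 2 + x * y + y ^ 2) - y * (x + y) := by ring
        rw [e]; exact dvd_sub hnn (Dvd.dvd.mul_right h5 _)
    · have h6 : (p : ℤ) ∣ x ^ 2 := by
        have e : x ^ 2 = (x ^ 2 + x * y + y ^ 2) - (x + y) * y := by ring
        rw [e]; exact dvd_sub hnn (Dvd.dvd.mul_right h4 _)
      have h7 := hpI.dvd_of_dvd_pow h6
      exact ⟨h7, (Int.dvd_add_right h7).1 h4⟩
  obtain ⟨hx, hy⟩ := hboth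
  have hA : (p : ℤ) ∣ u ^ 2 - v ^ 2 := by
    have e : (r ^ 2 + r * s + s ^ 2) * (u ^ 2 - v ^ 2) =
        N1 r s u v * (r + s) + N2 r s u v * s := by simp only [N1, N2]; ring
    have : (p : ℤ) ∣ (r ^ 2 + r * s + s ^ 2) * (u ^ 2 - v ^ 2) := by
      rw [e]; exact dvd_add (Dvd.dvd.mul_right hx _) (Dvd.dvd.mul_right hy _)
    exact (hpI.dvd_or_dvd this).resolve_left hN
  have hB : (p : ℤ) ∣ v * (2 * u + v) := by
    have e : (r ^ 2 + r * s + s ^ 2) * (v * (2 * u + v)) =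
        N2 r s u v * r - N1 r s u v * s := by simp only [N1, N2]; ring
    have : (p : ℤ) ∣ (r ^ 2 + r * s + s ^ 2) * (v * (2 * u + v)) := by
      rw [e]; exact dvd_sub (Dvd.dvd.mul_right hy _) (Dvd.dvd.mul_right hx _)
    exact (hpI.dvd_or_dvd this).resolve_left hN
  rcases hpI.dvd_or_dvd hB with h4 | h4
  · apply huv
    refine ⟨hpI.dvd_of_dvd_pow (n := 2) ?_, h4⟩
    have e : u ^ 2 = (u ^ 2 - v ^ 2) + v * v := by ring
    rw [e]; exact dvd_add hA (Dvd.dvd.mul_right h4 _)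
  · have h5 : (p : ℤ) ∣ 3 * u ^ 2 := by
      have e : 3 * u ^ 2 = (2 * u + v) * (2 * u - v) - (u ^ 2 - v ^ 2) := by ring
      rw [e]; exact dvd_sub (Dvd.dvd.mul_right h4 _) hA
    have h6 := hpI.dvd_of_dvd_pow ((hpI.dvd_or_dvd h5).resolve_left h3)
    exact huv ⟨h6, (Int.dvd_add_right (Dvd.dvd.mul_left h6 2)).1 h4⟩

/-- the derivative on the line `v = 1` -/
def TT (b r s k t : ℤ) : ℤ :=
  -((2 * r * t - 2 * s) * N2 r s t 1 * (N1 r s t 1 + N2 r s t 1) +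
    N1 r s t 1 * (2 * r + 2 * s * t + 2 * s) * (N1 r s t 1 + N2 r s t 1) +
    N1 r s t 1 * N2 r s t 1 * ((2 * r * t - 2 * s) + (2 * r + 2 * s * t + 2 * s))) +
  3 * b * qq k t 1 ^ 2 * (k * (2 * t + 1))

lemma GG_taylor (b r s k t h : ℤ) : ∃ R : ℤ, GG b r s k (t + h) 1 =
    GG b r s k t 1 + h * TT b r s k t + h ^ 2 * R := by
  have e1 : N1 r s (t + h) 1 = N1 r s t 1 + h * ((2 * r * t - 2 * s) + h * r) := by
    simp only [N1]; ring
  have e2 : N2 r s (t + h) 1 = N2 r s t 1 + h * ((2 * r + 2 * s * t + 2 * s) + h * s) := by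
    simp only [N2]; ring
  have e3 : qq k (t + h) 1 = qq k t 1 + h * (k * (2 * t + 1) + h * k) := by
    simp only [qq, QQ]; ring
  simp only [GG, TT]
  rw [e1, e2, e3]
  generalize N1 r s t 1 = x
  generalize N2 r s t 1 = y
  generalize qq k t 1 = q
  generalize 2 * r * t - 2 * s = α
  generalize 2 * r + 2 * s * t + 2 * s = β
  generalize k * (2 * t + 1) = γ
  refine ⟨(-(r * y * (x + y) + x * s * (x + y) + x * y * (r + s)) + 3 * b * q ^ 2 * k) +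
    (-((α + h * r) * (β + h * s) * (x + y) + (α + h * r) * y * ((α + h * r) + (β + h * s)) +
      x * (β + h * s) * ((α + h * r) + (β + h * s))) + 3 * b * q * (γ + h * k) ^ 2) +
    h * (-((α + h * r) * (β + h * s) * ((α + h * r) + (β + h * s))) + b * (γ + h * k) ^ 3),
    by ring⟩

lemma T_unit (hn : r ^ 2 + r * s + s ^ 2 = -a * k ^ 2) {p : ℕ} (hp : p.Prime) {t : ℤ}
    (hD : ¬ (p : ℤ) ∣ 4 * a ^ 3 + 27 * b ^ 2) (hq : ¬ (p : ℤ) ∣ qq k t 1)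
    (h1 : (p : ℤ) ∣ GG b r s k t 1) : ¬ (p : ℤ) ∣ TT b r s k t := by
  have hpI : Prime (p : ℤ) := Nat.prime_iff_prime_int.1 hp
  intro hT
  have e : k * ((N1 r s t 1 - N2 r s t 1) * (2 * N1 r s t 1 + N2 r s t 1) *
      (N1 r s t 1 + 2 * N2 r s t 1)) =
      qq k t 1 * TT b r s k t - 3 * (k * (2 * t + 1)) * GG b r s k t 1 := by
    simp only [TT, GG, N1, N2, qq, QQ]; ring
  have h3 : (p : ℤ) ∣ k * ((N1 r s t 1 - N2 r s t 1) * (2 * N1 r s t 1 + N2 r s t 1) *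
      (N1 r s t 1 + 2 * N2 r s t 1)) := by
    rw [e]; exact dvd_sub (Dvd.dvd.mul_left hT _) (Dvd.dvd.mul_left h1 _)
  rcases hpI.dvd_or_dvd h3 with h4 | h4
  · exact hq (Dvd.dvd.mul_right h4 _)
  · exact dprod hn hp hD hq h1 h4

/-- growth on the line `v = 1` -/
lemma growth (b r s k : ℤ) (h1 : GG b r s k 1 0 ≠ 0) (c : ℤ) (hc : 0 < c) (B : ℤ) :
    ∃ n : ℕ, 0 < n ∧ B < |GG b r s k (c * n) 1| := by
  set g : ℝ → ℝ := fun x =>
    -(((r : ℝ) * (1 - x ^ 2) - s * (2 * x + x ^ 2)) *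
      (r * (2 * x + x ^ 2) + s * (1 - x ^ 2) + s * (2 * x + x ^ 2)) *
      (((r : ℝ) * (1 - x ^ 2) - s * (2 * x + x ^ 2)) +
        (r * (2 * x + x ^ 2) + s * (1 - x ^ 2) + s * (2 * x + x ^ 2)))) +
      b * (k * (1 + x + x ^ 2)) ^ 3 with hg
  have hcont : Continuous g := by rw [hg]; fun_prop
  have hg0 : g 0 = (GG b r s k 1 0 : ℤ) := by
    simp only [hg, GG, N1, N2, qq, QQ]; push_cast; ring
  have hg1 : (1 : ℝ) / 2 < |g 0| := by
    rw [hg0]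
    have : 1 ≤ |GG b r s k 1 0| := Int.one_le_abs h1
    have h2 : (1 : ℝ) ≤ |((GG b r s k 1 0 : ℤ) : ℝ)| := by exact_mod_cast this
    linarith
  have hev : ∀ᶠ x in 𝓝 (0 : ℝ), (1 : ℝ) / 2 < |g x| :=
    (hcont.abs.tendsto 0).eventually (lt_mem_nhds hg1)
  have hc' : (0 : ℝ) < c := by exact_mod_cast hc
  have ht : Tendsto (fun n : ℕ => (c : ℝ) * n) atTop atTop :=
    tendsto_natCast_atTop_atTop.const_mul_atTop hc'
  have hinv : Tendsto (fun n : ℕ => 1 / ((c : ℝ) * n)) atTop (𝓝 0) :=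
    Tendsto.const_div_atTop ht 1
  have hev2 := (hinv.eventually hev).and ((ht.eventually_gt_atTop (2 * |(B : ℝ)| + 1)).and
    (eventually_gt_atTop 0))
  obtain ⟨n, hn1, hn2, hn3⟩ := hev2.exists
  refine ⟨n, hn3, ?_⟩
  have hpos : (0 : ℝ) < (c : ℝ) * n := by
    have := abs_nonneg (B : ℝ)
    linarith
  have e : ((GG b r s k (c * n) 1 : ℤ) : ℝ) = ((c : ℝ) * n) ^ 6 * g (1 / ((c : ℝ) * n)) := by
    simp only [hg, GG, N1, N2, qq, QQ]
    push_cast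
    generalize (c : ℝ) * n = T at *
    have hT : T ≠ 0 := hpos.ne'
    field_simp
  have h5 : (B : ℝ) < |((GG b r s k (c * n) 1 : ℤ) : ℝ)| := by
    rw [e, abs_mul, abs_of_pos (by positivity)]
    have h6 : (c : ℝ) * n ≤ ((c : ℝ) * n) ^ 6 := by
      have : (1 : ℝ) ≤ (c : ℝ) * n := by
        have := abs_nonneg (B : ℝ)
        linarith
      calc (c : ℝ) * n = ((c : ℝ) * n) ^ 1 := by ring
        _ ≤ ((c : ℝ) * n) ^ 6 := pow_le_pow_right₀ this (by norm_num)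
    have h7 : (c : ℝ) * n * (1 / 2) ≤ ((c : ℝ) * n) ^ 6 * |g (1 / ((c : ℝ) * n))| :=
      mul_le_mul h6 hn1.le (by norm_num) (by positivity)
    have := le_abs_self (B : ℝ)
    linarith
  have h8 : ((B : ℤ) : ℝ) < ((|GG b r s k (c * n) 1| : ℤ) : ℝ) := by
    rw [Int.cast_abs]; exact h5
  exact_mod_cast h8

/-- existence of the auxiliary prime and of the residue class -/
theorem exists_classB (hn : r ^ 2 + r * s + s ^ 2 = -a * k ^ 2) (hk : k ≠ 0) (ha : a ≠ 0)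
    (hroot : ∀ r : ℚ, r ^ 3 + a * r + b ≠ 0) (hD : 4 * a ^ 3 + 27 * b ^ 2 ≠ 0)
    {M : ℤ} (hM : M ≠ 0) :
    ∃ p : ℕ, p.Prime ∧ ¬ (p : ℤ) ∣ M ∧ ∃ t : ℤ, GoodB a b r s k p t 1 := by
  set h0 : ℤ := GG b r s k 0 1 with hh0
  have h0ne : h0 ≠ 0 := GG_ne hn hk hroot (Or.inr one_ne_zero)
  have h1ne : GG b r s k 1 0 ≠ 0 := GG_ne hn hk hroot (Or.inl one_ne_zero)
  set P : ℤ := 3 * a * k * (4 * a ^ 3 + 27 * b ^ 2) * M with hP
  have hPne : P ≠ 0 := by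
    rw [hP]
    exact mul_ne_zero (mul_ne_zero (mul_ne_zero (mul_ne_zero (by norm_num) ha) hk) hD) hM
  obtain ⟨n, hnpos, hgr⟩ := growth b r s k h1ne ((h0 * P) ^ 2)
    (by have := mul_ne_zero h0ne hPne; positivity) |h0|
  set t : ℤ := (h0 * P) ^ 2 * n with ht
  have hmod : t ∣ GG b r s k t 1 - h0 := by
    have h2 : GG b r s k 0 1 ≡ GG b r s k t 1 [ZMOD t] := by
      have h3 : (0 : ℤ) ≡ t [ZMOD t] := by
        rw [Int.modEq_iff_dvd]; simp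
      simp only [GG, N1, N2, qq, QQ]
      gcongr
    exact Int.modEq_iff_dvd.1 h2
  obtain ⟨c, hc⟩ := hmod
  set e : ℤ := 1 + P * (h0 * P * n * c) with he
  have hGe : GG b r s k t 1 = h0 * e := by
    rw [he, eq_add_of_sub_eq hc, ht]; ring
  have he1 : 1 < e.natAbs := by
    rw [hGe, abs_mul] at hgr
    have h2 : 0 < |h0| := abs_pos.2 h0ne
    have h3 : |h0| * 1 < |h0| * |e| := by linarith
    have h4 : 1 < |e| := lt_of_mul_lt_mul_left h3 h2.le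
    rw [Int.abs_eq_natAbs] at h4
    exact_mod_cast h4
  obtain ⟨p, hp, hpe⟩ := Nat.exists_prime_and_dvd (n := e.natAbs) (by omega)
  have hpe' : (p : ℤ) ∣ e := Int.natCast_dvd.2 hpe
  have hpI : Prime (p : ℤ) := Nat.prime_iff_prime_int.1 hp
  have hpP : ¬ (p : ℤ) ∣ P := by
    intro h
    have e1 : (1 : ℤ) = e - P * (h0 * P * n * c) := by rw [he]; ring
    have : (p : ℤ) ∣ 1 := by rw [e1]; exact dvd_sub hpe' (Dvd.dvd.mul_right h _)
    exact hpI.not_dvd_one this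
  have f3 : ¬ (p : ℤ) ∣ 3 := fun h =>
    hpP (h.trans ⟨a * k * (4 * a ^ 3 + 27 * b ^ 2) * M, by rw [hP]; ring⟩)
  have fa : ¬ (p : ℤ) ∣ a := fun h =>
    hpP (h.trans ⟨3 * k * (4 * a ^ 3 + 27 * b ^ 2) * M, by rw [hP]; ring⟩)
  have fk : ¬ (p : ℤ) ∣ k := fun h =>
    hpP (h.trans ⟨3 * a * (4 * a ^ 3 + 27 * b ^ 2) * M, by rw [hP]; ring⟩)
  have fD : ¬ (p : ℤ) ∣ 4 * a ^ 3 + 27 * b ^ 2 := fun h =>
    hpP (h.trans ⟨3 * a * k * M, by rw [hP]; ring⟩)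
  have fM : ¬ (p : ℤ) ∣ M := fun h =>
    hpP (h.trans ⟨3 * a * k * (4 * a ^ 3 + 27 * b ^ 2), by rw [hP]; ring⟩)
  have hG : (p : ℤ) ∣ GG b r s k t 1 := by rw [hGe]; exact Dvd.dvd.mul_left hpe' _
  have hN : ¬ (p : ℤ) ∣ r ^ 2 + r * s + s ^ 2 := by
    rw [hn]
    intro h
    rcases hpI.dvd_or_dvd h with h4 | h4
    · exact fa ((dvd_neg).1 h4)
    · exact fk (hpI.dvd_of_dvd_pow h4)
  have hq : ¬ (p : ℤ) ∣ qq k t 1 := by
    intro h
    have hQ := (hpI.dvd_or_dvd h).resolve_left fk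
    exact G_unit (b := b) (k := k) hp f3 hN hQ (fun h => hpI.not_dvd_one h.2) hG
  refine ⟨p, hp, fM, ?_⟩
  by_cases hG2 : (p : ℤ) ^ 2 ∣ GG b r s k t 1
  · refine ⟨t + p, fD, ?_, ?_, ?_⟩
    · intro h
      apply hq
      have e3 : qq k t 1 = qq k (t + p) 1 - p * (k * (2 * t + 1) + p * k) := by
        simp only [qq, QQ]; ring
      rw [e3]
      exact dvd_sub h (Dvd.intro _ rfl)
    · obtain ⟨R, hR⟩ := GG_taylor b r s k t p
      rw [hR]
      refine dvd_add (dvd_add hG (Dvd.intro _ rfl)) ?_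
      rw [pow_two, mul_assoc]
      exact Dvd.intro _ rfl
    · intro h
      obtain ⟨R, hR⟩ := GG_taylor b r s k t p
      rw [hR] at h
      have h3 : (p : ℤ) ^ 2 ∣ (p : ℤ) * TT b r s k t := by
        have h4 := dvd_sub (dvd_sub h (Dvd.intro R rfl)) hG2
        rwa [add_sub_cancel_right, add_sub_cancel_left] at h4
      rw [pow_two] at h3
      exact T_unit hn hp fD hq hG ((mul_dvd_mul_iff_left hpI.ne_zero).1 h3)
  · exact ⟨t, fD, hq, hG, hG2⟩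

end Pool.Agent.Helper33.TW
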