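import Pool.Agent.Helper33.TW.ConicSign

/-! The conic form modulo a prime of multiplicative reduction. -/

namespace Pool.Agent.Helper33.TW

section field

variable {K : Type*} [Field K]

/-- the norm form over a field -/
def qK (u v : K) : K := u ^ 2 + u * v + v ^ 2

/-- the form of degree 8 over a field -/
def fK (b r s k u v : K) : K :=
  k * qK u v * (-((r * (u ^ 2 - v ^ 2) - s * (2 * u * v + v ^ 2)) *
      (r * (2 * u * v + v ^ 2) + s * (u ^ 2 - v ^ 2) + s * (2 * u * v + v ^ 2)) *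
      ((r * (u ^ 2 - v ^ 2) - s * (2 * u * v + v ^ 2)) +
        (r * (2 * u * v + v ^ 2) + s * (u ^ 2 - v ^ 2) + s * (2 * u * v + v ^ 2)))) +
      b * (k * qK u v) ^ 3)

lemma quad_roots [Fintype K] [DecidableEq K] {A B C : K} (h : ¬ (A = 0 ∧ B = 0 ∧ C = 0)) :
    (Finset.univ.filter fun t : K => A * t ^ 2 + B * t + C = 0).card ≤ 2 := by
  classical
  set P : Polynomial K := Polynomial.C A * Polynomial.X ^ 2 + Polynomial.C B * Polynomial.X +
    Polynomial.C C with hP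
  have hP0 : P ≠ 0 := by
    intro h0
    apply h
    refine ⟨?_, ?_, ?_⟩
    · have := congrArg (fun Q => Polynomial.coeff Q 2) h0
      simpa [hP, Polynomial.coeff_C, Polynomial.coeff_X] using this
    · have := congrArg (fun Q => Polynomial.coeff Q 1) h0
      simpa [hP, Polynomial.coeff_C, Polynomial.coeff_X] using this
    · have := congrArg (fun Q => Polynomial.coeff Q 0) h0
      simpa [hP, Polynomial.coeff_C, Polynomial.coeff_X] using this
  have hdeg : P.natDegree ≤ 2 := Polynomial.natDegree_quadratic_le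
  have hsub : (Finset.univ.filter fun t : K => A * t ^ 2 + B * t + C = 0) ⊆ P.roots.toFinset := by
    intro t ht
    rw [Finset.mem_filter] at ht
    rw [Multiset.mem_toFinset, Polynomial.mem_roots hP0, Polynomial.IsRoot.def, hP]
    simpa using ht.2
  calc _ ≤ P.roots.toFinset.card := Finset.card_le_card hsub
    _ ≤ Multiset.card P.roots := Multiset.toFinset_card_le _
    _ ≤ P.natDegree := Polynomial.card_roots' P
    _ ≤ 2 := hdeg

/-- four nonzero quadratic polynomials have a common point of nonvanishing -/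
lemma exists_good [Fintype K] (hK : 9 ≤ Fintype.card K) {A B C : Fin 4 → K}
    (h : ∀ i, ¬ (A i = 0 ∧ B i = 0 ∧ C i = 0)) :
    ∃ t : K, ∀ i, A i * t ^ 2 + B i * t + C i ≠ 0 := by
  classical
  by_contra hcon
  push Not at hcon
  have hcov : (Finset.univ : Finset K) ⊆ Finset.univ.biUnion
      (fun i : Fin 4 => Finset.univ.filter fun t : K => A i * t ^ 2 + B i * t + C i = 0) := by
    intro t _
    obtain ⟨i, hi⟩ := hcon t
    rw [Finset.mem_biUnion]
    exact ⟨i, Finset.mem_univ _, by rw [Finset.mem_filter]; exact ⟨Finset.mem_univ _, hi⟩⟩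
  have h1 := Finset.card_le_card hcov
  have h2 : (Finset.univ.biUnion
      (fun i : Fin 4 => Finset.univ.filter fun t : K => A i * t ^ 2 + B i * t + C i = 0)).card ≤
      ∑ i : Fin 4, 2 := Finset.card_biUnion_le.trans
        (Finset.sum_le_sum fun i _ => quad_roots (h i))
  simp at h2
  rw [Finset.card_univ] at h1
  omega

/-- the form is the norm form times a square, up to a constant -/
lemma f_shape {r s k e : K} (h3 : (3 : K) ≠ 0) (he : e ≠ 0) (hk : k ≠ 0)
    (hn : r ^ 2 + r * s + s ^ 2 = 3 * e ^ 2 * k ^ 2) :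
    ∃ (c : K) (A B : Fin 3 → K), c ≠ 0 ∧ (∀ i, ¬ (A i = 0 ∧ B i = 0)) ∧ ∀ u v : K,
      c * fK (2 * e ^ 3) r s k u v =
        qK u v * ((A 0 * u + B 0 * v) * (A 1 * u + B 1 * v) * (A 2 * u + B 2 * v)) ^ 2 := by
  have hek : e * k ≠ 0 := mul_ne_zero he hk
  -- one linear form whose square is `x1 + 2e`
  have hL : ∃ c1 l1 l2 : K, c1 ≠ 0 ∧ ¬ (l1 = 0 ∧ l2 = 0) ∧ ∀ u v : K,
      c1 * ((r * (u ^ 2 - v ^ 2) - s * (2 * u * v + v ^ 2)) + 2 * e * (k * qK u v)) =
        (l1 * u + l2 * v) ^ 2 := by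
    by_cases hr : r + 2 * e * k = 0
    · have hr' : r = -(2 * e * k) := eq_neg_of_add_eq_zero_left hr
      have hs : s = e * k := by
        have : (s - e * k) ^ 2 = 0 := by
          rw [hr'] at hn
          linear_combination hn
        exact sub_eq_zero.1 (pow_eq_zero_iff (two_ne_zero)|>.1 this)
      refine ⟨3 * e * k, 0, 3 * e * k, mul_ne_zero (mul_ne_zero h3 he) hk, ?_, ?_⟩
      · rintro ⟨_, h⟩
        exact mul_ne_zero (mul_ne_zero h3 he) hk h
      · intro u v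
        rw [hr', hs]
        simp only [qK]
        ring
    · refine ⟨r + 2 * e * k, r + 2 * e * k, e * k - s, hr, fun h => hr h.1, ?_⟩
      intro u v
      simp only [qK]
      linear_combination (-v ^ 2) * hn
  have hM : ∃ c2 m1 m2 n1 n2 : K, c2 ≠ 0 ∧ ¬ (m1 = 0 ∧ m2 = 0) ∧ ¬ (n1 = 0 ∧ n2 = 0) ∧
      ∀ u v : K, c2 * ((r * (u ^ 2 - v ^ 2) - s * (2 * u * v + v ^ 2)) - e * (k * qK u v)) =
        (m1 * u + m2 * v) * (n1 * u + n2 * v) := by
    by_cases hr : r - e * k = 0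
    · have hr' : r = e * k := sub_eq_zero.1 hr
      refine ⟨-1, 0, 1, 2 * s + e * k, r + s + e * k, by
        exact neg_ne_zero.2 one_ne_zero, fun h => one_ne_zero h.2, ?_, ?_⟩
      · rintro ⟨h4, h5⟩
        rw [hr'] at h5
        have : 3 * (e * k) = 0 := by linear_combination 2 * h5 - h4
        exact mul_ne_zero h3 hek this
      · intro u v
        rw [hr']
        simp only [qK]
        ring
    · refine ⟨r - e * k, r - e * k, -(s + 2 * e * k), r - e * k, -(s - e * k), hr,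
        fun h => hr h.1, fun h => hr h.1, ?_⟩
      intro u v
      simp only [qK]
      linear_combination (-v ^ 2) * hn
  obtain ⟨c1, l1, l2, hc1, hl, hL⟩ := hL
  obtain ⟨c2, m1, m2, n1, n2, hc2, hm, hn', hM⟩ := hM
  refine ⟨c1 * c2 ^ 2 * k⁻¹, ![l1, m1, n1], ![l2, m2, n2],
    mul_ne_zero (mul_ne_zero hc1 (pow_ne_zero 2 hc2)) (inv_ne_zero hk), ?_, ?_⟩
  · intro i
    fin_cases i
    · simpa using hl
    · simpa using hm
    · simpa using hn'
  · intro u v
    simp only [Matrix.cons_val_zero, Matrix.cons_val_one, Matrix.cons_val]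
    have e1 : (qK u v * ((l1 * u + l2 * v) * (m1 * u + m2 * v) * (n1 * u + n2 * v)) ^ 2 : K) =
        qK u v * ((l1 * u + l2 * v) ^ 2 * ((m1 * u + m2 * v) * (n1 * u + n2 * v)) ^ 2) := by ring
    rw [e1, ← hL, ← hM]
    have e2 : fK (2 * e ^ 3) r s k u v = k * (qK u v *
        (((r * (u ^ 2 - v ^ 2) - s * (2 * u * v + v ^ 2)) + 2 * e * (k * qK u v)) *
          ((r * (u ^ 2 - v ^ 2) - s * (2 * u * v + v ^ 2)) - e * (k * qK u v)) ^ 2)) := by
      have hq : (r * (u ^ 2 - v ^ 2) - s * (2 * u * v + v ^ 2)) ^ 2 +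
          (r * (u ^ 2 - v ^ 2) - s * (2 * u * v + v ^ 2)) *
          (r * (2 * u * v + v ^ 2) + s * (u ^ 2 - v ^ 2) + s * (2 * u * v + v ^ 2)) +
          (r * (2 * u * v + v ^ 2) + s * (u ^ 2 - v ^ 2) + s * (2 * u * v + v ^ 2)) ^ 2 =
          3 * e ^ 2 * (k * qK u v) ^ 2 := by
        have e3 : (r * (u ^ 2 - v ^ 2) - s * (2 * u * v + v ^ 2)) ^ 2 +
          (r * (u ^ 2 - v ^ 2) - s * (2 * u * v + v ^ 2)) *
          (r * (2 * u * v + v ^ 2) + s * (u ^ 2 - v ^ 2) + s * (2 * u * v + v ^ 2)) +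
          (r * (2 * u * v + v ^ 2) + s * (u ^ 2 - v ^ 2) + s * (2 * u * v + v ^ 2)) ^ 2 =
          (r ^ 2 + r * s + s ^ 2) * qK u v ^ 2 := by simp only [qK]; ring
        rw [e3, hn]; ring
      simp only [fK]
      generalize (r * (u ^ 2 - v ^ 2) - s * (2 * u * v + v ^ 2)) = x at *
      generalize (r * (2 * u * v + v ^ 2) + s * (u ^ 2 - v ^ 2) + s * (2 * u * v + v ^ 2)) = y at *
      generalize qK u v = z at *
      linear_combination (-(k * z * x)) * hq
    rw [e2]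
    field_simp

/-- the form has a value in every class of the norm form -/
lemma f_value [Fintype K] (hK : 9 ≤ Fintype.card K) (h2 : (2 : K) ≠ 0) {F : K → K → K}
    {A B : Fin 3 → K} (hAB : ∀ i, ¬ (A i = 0 ∧ B i = 0))
    (hF : ∀ u v : K, F u v =
        qK u v * ((A 0 * u + B 0 * v) * (A 1 * u + B 1 * v) * (A 2 * u + B 2 * v)) ^ 2)
    {u0 v0 : K} (h0 : qK u0 v0 ≠ 0) :
    ∃ u v z : K, z ≠ 0 ∧ F u v = qK u0 v0 * z ^ 2 := by
  have key : ∀ l1 l2 : K, ¬ (l1 = 0 ∧ l2 = 0) → ¬ (l1 * u0 + l2 * v0 = 0 ∧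
      -2 * l1 * v0 + 2 * l2 * (u0 + v0) = 0 ∧ -(l1 * (u0 + v0)) + l2 * u0 = 0) := by
    intro l1 l2 hl ⟨e1, e2, _⟩
    have e3 : -(l1 * v0) + l2 * (u0 + v0) = 0 := by
      have : 2 * (-(l1 * v0) + l2 * (u0 + v0)) = 0 := by linear_combination e2
      exact (mul_eq_zero.1 this).resolve_left h2
    apply hl
    constructor
    · have : l1 * qK u0 v0 = 0 := by
        simp only [qK]; linear_combination (u0 + v0) * e1 - v0 * e3
      exact (mul_eq_zero.1 this).resolve_right h0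
    · have : l2 * qK u0 v0 = 0 := by
        simp only [qK]; linear_combination v0 * e1 + u0 * e3
      exact (mul_eq_zero.1 this).resolve_right h0
  obtain ⟨t, ht⟩ := exists_good hK
    (A := ![1, A 0 * u0 + B 0 * v0, A 1 * u0 + B 1 * v0, A 2 * u0 + B 2 * v0])
    (B := ![1, -2 * A 0 * v0 + 2 * B 0 * (u0 + v0), -2 * A 1 * v0 + 2 * B 1 * (u0 + v0),
      -2 * A 2 * v0 + 2 * B 2 * (u0 + v0)])
    (C := ![1, -(A 0 * (u0 + v0)) + B 0 * u0, -(A 1 * (u0 + v0)) + B 1 * u0,
      -(A 2 * (u0 + v0)) + B 2 * u0]) (by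
      intro i
      fin_cases i
      · simp
      · simpa using key _ _ (hAB 0)
      · simpa using key _ _ (hAB 1)
      · simpa using key _ _ (hAB 2))
  have t0 := ht 0
  have t1 := ht 1
  have t2 := ht 2
  have t3 := ht 3
  simp only [Matrix.cons_val_zero, Matrix.cons_val_one, Matrix.cons_val] at t0 t1 t2 t3
  set u : K := u0 * (t ^ 2 - 1) - v0 * (2 * t + 1) with hu
  set v : K := u0 * (2 * t + 1) + v0 * (t ^ 2 - 1) + v0 * (2 * t + 1) with hv
  refine ⟨u, v, (t ^ 2 + t + 1) * ((A 0 * u + B 0 * v) * (A 1 * u + B 1 * v) *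
    (A 2 * u + B 2 * v)), ?_, ?_⟩
  · have e0 : A 0 * u + B 0 * v = (A 0 * u0 + B 0 * v0) * t ^ 2 +
      (-2 * A 0 * v0 + 2 * B 0 * (u0 + v0)) * t + (-(A 0 * (u0 + v0)) + B 0 * u0) := by
      rw [hu, hv]; ring
    have e1 : A 1 * u + B 1 * v = (A 1 * u0 + B 1 * v0) * t ^ 2 +
      (-2 * A 1 * v0 + 2 * B 1 * (u0 + v0)) * t + (-(A 1 * (u0 + v0)) + B 1 * u0) := by
      rw [hu, hv]; ring
    have e2 : A 2 * u + B 2 * v = (A 2 * u0 + B 2 * v0) * t ^ 2 +
      (-2 * A 2 * v0 + 2 * B 2 * (u0 + v0)) * t + (-(A 2 * (u0 + v0)) + B 2 * u0) := by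
      rw [hu, hv]; ring
    rw [e0, e1, e2]
    refine mul_ne_zero ?_ (mul_ne_zero (mul_ne_zero t1 t2) t3)
    simpa using t0
  · rw [hF]
    have : qK u v = qK u0 v0 * (t ^ 2 + t + 1) ^ 2 := by
      rw [hu, hv]; simp only [qK]; ring
    rw [this]
    generalize (A 0 * u + B 0 * v) * (A 1 * u + B 1 * v) * (A 2 * u + B 2 * v) = X
    generalize qK u0 v0 = Y
    ring

/-- the norm form takes every value -/
lemma q_surj [Fintype K] (hodd : Fintype.card K % 2 = 1) (h2 : (2 : K) ≠ 0) (h3 : (3 : K) ≠ 0)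
    (n : K) : ∃ u v : K, qK u v = n := by
  obtain ⟨x, y, hxy⟩ := FiniteField.exists_root_sum_quadratic (R := K)
    (f := Polynomial.X ^ 2) (g := Polynomial.C 3 * Polynomial.X ^ 2 + Polynomial.C 0 * Polynomial.X
      + Polynomial.C (-(4 * n))) (by simp) (Polynomial.degree_quadratic h3) hodd
  refine ⟨(x - y) / 2, y, ?_⟩
  simp at hxy
  simp only [qK]
  have h4 : (4 : K) ≠ 0 := by
    have : (4 : K) = 2 * 2 := by norm_num
    rw [this]; exact mul_ne_zero h2 h2
  field_simp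
  linear_combination hxy

end field

end Pool.Agent.Helper33.TW
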