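import Pool.Agent.Helper33.TW.ConicNorm
import Pool.Agent.Helper19.TW.Final

/-! The final count for curves with a rational pair `f x₁ = f x₂`. -/

namespace Pool.Agent.Helper33.TW

open Pool.Agent.Helper19.TW

lemma ne_a {a b : ℤ} {x₁ x₂ : ℚ} (hne : x₁ ≠ x₂)
    (h : x₁ ^ 3 + a * x₁ + b = x₂ ^ 3 + a * x₂ + b) : a ≠ 0 := by
  rintro rfl
  apply hne
  have h1 : (x₁ - x₂) * (x₁ ^ 2 + x₁ * x₂ + x₂ ^ 2) = 0 := by
    push_cast at h; linear_combination h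
  have h2 := (mul_eq_zero.1 h1).resolve_left (sub_ne_zero.2 hne)
  have h3 : x₂ = 0 := by nlinarith [sq_nonneg (2 * x₁ + x₂), sq_nonneg x₂]
  have h4 : x₁ = 0 := by
    rw [h3] at h2
    nlinarith [sq_nonneg x₁]
  rw [h3, h4]

/-- the count with the set `Good` -/
theorem goodB {a b r s k : ℤ} (hn : r ^ 2 + r * s + s ^ 2 = -a * k ^ 2) (hk : k ≠ 0) (ha : a ≠ 0)
    (hroot : ∀ r : ℚ, r ^ 3 + a * r + b ≠ 0)
    {M : ℕ} (hM : 1 ≤ M) {w : ℤ → ℤ} (hw : RootLike M w)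
    (h : ∃ u v : ℤ, FB b r s k u v ≠ 0 ∧ w (FB b r s k u v) = 1) :
    ∃ c : ℝ, 0 < c ∧ ∃ D₀ : ℝ, ∀ D : ℝ, D₀ ≤ D →
      c * D ^ (1 / 4 : ℝ) / Real.log D ≤
        (Set.ncard {d : ℤ | d ∈ Good a b w ∧ |(d : ℝ)| ≤ D} : ℝ) := by
  obtain ⟨u₁, v₁, h0, h1⟩ := h
  obtain ⟨C, l0, H⟩ := memberB hn hk ha hroot hM hw h0 h1
  classical
  choose! d hd using H
  obtain ⟨c, hc, x₀, hp⟩ := primes3
  obtain ⟨c', hc', D0, hD⟩ := Pool.Agent.Helper8.TW.count (fun l => l % 3 = 1) 4 (by norm_num)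
    C l0 (Good a b w) d
    (fun l h1 h2 h3 => by
      obtain ⟨e1, e2, e3, e4, e5, e6⟩ := hd l h1 h2 h3
      exact ⟨⟨e1, e2, rank_ge e3⟩, e4, e5, e6⟩) c hc x₀ hp
  refine ⟨c', hc', D0, fun D hDD => ?_⟩
  have := hD D hDD
  simpa using this

/-- the final theorem for the conic family -/
theorem mainB {a b : ℤ} (hroot : ∀ r : ℚ, r ^ 3 + a * r + b ≠ 0)
    (hpair : ∃ x₁ x₂ : ℚ, x₁ ≠ x₂ ∧ x₁ ^ 3 + a * x₁ + b = x₂ ^ 3 + a * x₂ + b)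
    {M : ℕ} (hM : 1 ≤ M) {w : ℤ → ℤ} (hw : RootLike M w)
    (h : 4 * a ^ 3 + 27 * b ^ 2 < 0 ∨
      (∃ q N : ℕ, q.Prime ∧ 11 ≤ q ∧ 1 ≤ N ∧ ¬ q ∣ N ∧ ¬ (q : ℤ) ∣ a ∧
        (q : ℤ) ∣ 4 * a ^ 3 + 27 * b ^ 2 ∧
        ∀ d e : ℤ, ¬ (q : ℤ) ∣ d → ¬ (q : ℤ) ∣ e → (8 * N : ℤ) ∣ e - 1 →
          w (d * e) = e.sign * jacobiSym e q * w d) ∨
      ∃ (d : ℤ) (x₁ x₂ y : ℚ), w d = 1 ∧ x₁ ≠ x₂ ∧ d * y ^ 2 = x₁ ^ 3 + a * x₁ + b ∧
        d * y ^ 2 = x₂ ^ 3 + a * x₂ + b) :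
    ∃ c : ℝ, 0 < c ∧ ∃ D₀ : ℝ, ∀ D : ℝ, D₀ ≤ D →
      c * D ^ (1 / 4 : ℝ) / Real.log D ≤
        (Set.ncard {d : ℤ | d ∈ Good a b w ∧ |(d : ℝ)| ≤ D} : ℝ) := by
  obtain ⟨y₁, y₂, hy, hyy⟩ := hpair
  have ha := ne_a hy hyy
  obtain ⟨r, s, k, hk, hn, _, _⟩ := pair_base hy hyy
  rcases h with h | ⟨q, N, hq, h11, hN, hqN, hqa, hqD, hwq⟩ | ⟨d, x₁, x₂, y, hwd, hx, h1, h2⟩
  · exact goodB hn hk ha hroot hM hw (baseB hn hk hroot h hM hw)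
  · obtain ⟨r', s', k', hk', hqk', hn'⟩ := descend hq (by omega) k.natAbs r s k le_rfl hk hn
    exact goodB hn' hk' ha hroot hM hw (flipB hn' hq h11 hqa hqk' hqD hN
      (by exact_mod_cast hqN) hw.pm hwq)
  · obtain ⟨r', s', k', hk', hn', e1, e2⟩ := pair_base (a := a) (b := b) hx (h1.symm.trans h2)
    refine goodB hn' hk' ha hroot hM hw ⟨1, 0, ?_⟩
    have hk'q : (k' : ℚ) ≠ 0 := by exact_mod_cast hk'
    have hF : ((FB b r' s' k' 1 0 : ℤ) : ℚ) = k' ^ 4 * (d * y ^ 2) := by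
      rw [h1]
      have e3 : ((r' : ℚ)) = x₁ * k' := by rw [e1]; field_simp
      have e4 : ((s' : ℚ)) = x₂ * k' := by rw [e2]; field_simp
      have e5 : x₁ ^ 2 + x₁ * x₂ + x₂ ^ 2 = -a := by
        have : (x₁ - x₂) * (x₁ ^ 2 + x₁ * x₂ + x₂ ^ 2 + a) = 0 := by linear_combination h2 - h1
        have := (mul_eq_zero.1 this).resolve_left (sub_ne_zero.2 hx)
        linear_combination this
      simp only [FB, GG, N1, N2, qq, QQ]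
      push_cast
      rw [e3, e4]
      linear_combination (-(k' ^ 4 * x₁)) * e5
    have hd0 : (d : ℚ) * y ^ 2 ≠ 0 := by rw [h1]; exact hroot x₁
    have hd : d ≠ 0 := by
      rintro rfl
      apply hd0; push_cast; ring
    have hy0 : y ≠ 0 := by
      rintro rfl
      apply hd0; ring
    have hF0 : FB b r' s' k' 1 0 ≠ 0 := by
      intro h
      rw [h] at hF
      exact mul_ne_zero (pow_ne_zero 4 hk'q) hd0 (by rw [← hF]; norm_num)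
    refine ⟨hF0, ?_⟩
    have hden : (y.den : ℤ) ≠ 0 := by exact_mod_cast y.den_ne_zero
    have hnum : y.num ≠ 0 := Rat.num_ne_zero.2 hy0
    have e6 : FB b r' s' k' 1 0 * (y.den : ℤ) ^ 2 = d * (k' ^ 2 * y.num) ^ 2 := by
      have h3 : ((FB b r' s' k' 1 0 * (y.den : ℤ) ^ 2 : ℤ) : ℚ) =
          ((d * (k' ^ 2 * y.num) ^ 2 : ℤ) : ℚ) := by
        push_cast
        rw [hF]
        have h4 : y * y.den = y.num := Rat.mul_den_eq_num y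
        rw [← h4]; ring
      exact_mod_cast h3
    rw [← hw.sq _ _ hF0 hden, e6, hw.sq _ _ hd (mul_ne_zero (pow_ne_zero 2 hk') hnum)]
    exact hwd

end Pool.Agent.Helper33.TW
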