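import Pool.Agent.Helper33.TW.ConicField

/-! A prime `q ≥ 11` of multiplicative reduction lets the conic form take both root number classes. -/

namespace Pool.Agent.Helper33.TW

open Pool.Agent.Helper19.TW

variable {a b r s k : ℤ}

lemma FB_castK {K : Type*} [Field K] (u v : ℤ) :
    ((FB b r s k u v : ℤ) : K) = fK (b : K) r s k u v := by
  simp only [FB, GG, N1, N2, qq, QQ, fK, qK]; push_cast; ring

/-- two values in different classes modulo `q` -/
theorem flip_pair (hn : r ^ 2 + r * s + s ^ 2 = -a * k ^ 2) {q : ℕ} (hq : q.Prime) (h11 : 11 ≤ q)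
    (hqa : ¬ (q : ℤ) ∣ a) (hqk : ¬ (q : ℤ) ∣ k) (hqD : (q : ℤ) ∣ 4 * a ^ 3 + 27 * b ^ 2) :
    ∃ u0 v0 u1 v1 : ℤ, ¬ (q : ℤ) ∣ FB b r s k u0 v0 ∧ ¬ (q : ℤ) ∣ FB b r s k u1 v1 ∧
      jacobiSym (FB b r s k u0 v0 * FB b r s k u1 v1) q = -1 := by
  have : Fact q.Prime := ⟨hq⟩
  have hnd : ∀ m : ℕ, 0 < m → m < q → ((m : ℕ) : ZMod q) ≠ 0 := by
    intro m h1 h2 h3
    rw [ZMod.natCast_eq_zero_iff] at h3
    exact absurd (Nat.le_of_dvd h1 h3) (by omega)
  have h2 : (2 : ZMod q) ≠ 0 := by simpa using hnd 2 (by norm_num) (by omega)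
  have h3 : (3 : ZMod q) ≠ 0 := by simpa using hnd 3 (by norm_num) (by omega)
  have h4 : (4 : ZMod q) ≠ 0 := by
    have : (4 : ZMod q) = 2 * 2 := by norm_num
    rw [this]; exact mul_ne_zero h2 h2
  have h27 : (27 : ZMod q) ≠ 0 := by
    have : (27 : ZMod q) = 3 * 3 * 3 := by norm_num
    rw [this]; exact mul_ne_zero (mul_ne_zero h3 h3) h3
  have ha : (a : ZMod q) ≠ 0 := by
    rw [Ne, ZMod.intCast_zmod_eq_zero_iff_dvd]; exact hqa
  have hk : (k : ZMod q) ≠ 0 := by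
    rw [Ne, ZMod.intCast_zmod_eq_zero_iff_dvd]; exact hqk
  have hD : 4 * (a : ZMod q) ^ 3 + 27 * (b : ZMod q) ^ 2 = 0 := by
    have := (ZMod.intCast_zmod_eq_zero_iff_dvd (4 * a ^ 3 + 27 * b ^ 2) q).2 hqD
    push_cast at this; exact this
  have hb : (b : ZMod q) ≠ 0 := by
    intro h
    rw [h] at hD
    have : 4 * (a : ZMod q) ^ 3 = 0 := by linear_combination hD
    exact mul_ne_zero h4 (pow_ne_zero 3 ha) this
  set e : ZMod q := -3 * b / (2 * a) with he
  have he0 : e ≠ 0 := by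
    rw [he]
    exact div_ne_zero (mul_ne_zero (neg_ne_zero.2 h3) hb) (mul_ne_zero h2 ha)
  have ea : (a : ZMod q) = -3 * e ^ 2 := by
    rw [he]
    field_simp
    linear_combination hD
  have eb : (b : ZMod q) = 2 * e ^ 3 := by
    have h5 : 2 * e * a = -3 * b := by rw [he]; field_simp
    have h6 : 3 * (2 * e ^ 3) = 3 * (b : ZMod q) := by
      rw [ea] at h5
      linear_combination -h5
    exact (mul_left_cancel₀ h3 h6).symm
  have hnK : (r : ZMod q) ^ 2 + r * s + s ^ 2 = 3 * e ^ 2 * k ^ 2 := by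
    have : ((r ^ 2 + r * s + s ^ 2 : ℤ) : ZMod q) = ((-a * k ^ 2 : ℤ) : ZMod q) := by rw [hn]
    push_cast at this
    rw [this, ea]; ring
  obtain ⟨c, A, B, hc, hAB, hF⟩ := f_shape (r := (r : ZMod q)) (s := s) (k := k) h3 he0 hk hnK
  have hcard : Fintype.card (ZMod q) = q := ZMod.card q
  have hodd : Fintype.card (ZMod q) % 2 = 1 := by
    rw [hcard]
    rcases hq.eq_two_or_odd with h | h
    · omega
    · exact h
  have h9 : 9 ≤ Fintype.card (ZMod q) := by rw [hcard]; omega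
  obtain ⟨u0, v0, z0, hz0, hf0⟩ := f_value h9 h2 hAB hF (u0 := 1) (v0 := 0) (by simp [qK])
  obtain ⟨n, hn'⟩ := FiniteField.exists_nonsquare (F := ZMod q) (by
    rw [ZMod.ringChar_zmod_n]; omega)
  have hn0 : n ≠ 0 := by
    rintro rfl
    exact hn' IsSquare.zero
  obtain ⟨x, y, hxy⟩ := q_surj hodd h2 h3 n
  obtain ⟨u1, v1, z1, hz1, hf1⟩ := f_value h9 h2 hAB hF (u0 := x) (v0 := y) (by rw [hxy]; exact hn0)
  rw [hxy] at hf1
  have hq10 : qK (1 : ZMod q) 0 = 1 := by simp [qK]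
  rw [hq10] at hf0
  have lift : ∀ z : ZMod q, ((z.val : ℤ) : ZMod q) = z := fun z => by simp
  have F0 : ((FB b r s k u0.val v0.val : ℤ) : ZMod q) = fK (2 * e ^ 3) (r : ZMod q) s k u0 v0 := by
    rw [FB_castK, lift, lift, eb]
  have F1 : ((FB b r s k u1.val v1.val : ℤ) : ZMod q) = fK (2 * e ^ 3) (r : ZMod q) s k u1 v1 := by
    rw [FB_castK, lift, lift, eb]
  have ne0 : fK (2 * e ^ 3) (r : ZMod q) s k u0 v0 ≠ 0 := by
    intro h
    rw [h, mul_zero, one_mul] at hf0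
    exact pow_ne_zero 2 hz0 hf0.symm
  have ne1 : fK (2 * e ^ 3) (r : ZMod q) s k u1 v1 ≠ 0 := by
    intro h
    rw [h, mul_zero] at hf1
    exact mul_ne_zero hn0 (pow_ne_zero 2 hz1) hf1.symm
  refine ⟨u0.val, v0.val, u1.val, v1.val, ?_, ?_, ?_⟩
  · rw [← ZMod.intCast_zmod_eq_zero_iff_dvd, F0]; exact ne0
  · rw [← ZMod.intCast_zmod_eq_zero_iff_dvd, F1]; exact ne1
  · rw [← jacobiSym.legendreSym.to_jacobiSym, legendreSym.eq_neg_one_iff]
    push_cast
    rw [F0, F1]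
    rintro ⟨m, hm⟩
    apply hn'
    refine ⟨c * m * (z0 * z1)⁻¹, ?_⟩
    have hz : z0 * z1 ≠ 0 := mul_ne_zero hz0 hz1
    have e1 : (c * m) * (c * m) = n * (z0 * z1) ^ 2 := by
      have : (c * m) * (c * m) = (c * fK (2 * e ^ 3) (r : ZMod q) s k u0 v0) *
        (c * fK (2 * e ^ 3) (r : ZMod q) s k u1 v1) := by
        linear_combination (-c ^ 2) * hm
      rw [this, hf0, hf1]; ring
    have e2 : c * m * (z0 * z1)⁻¹ * (c * m * (z0 * z1)⁻¹) =
        (c * m) * (c * m) * ((z0 * z1)⁻¹) ^ 2 := by ring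
    rw [e2, e1, mul_assoc, ← mul_pow, mul_inv_cancel₀ hz, one_pow, mul_one]

/-- a prime `q ≥ 11` of multiplicative reduction gives a good pair -/
theorem flipB (hn : r ^ 2 + r * s + s ^ 2 = -a * k ^ 2) {q : ℕ} (hq : q.Prime) (h11 : 11 ≤ q)
    (hqa : ¬ (q : ℤ) ∣ a) (hqk : ¬ (q : ℤ) ∣ k) (hqD : (q : ℤ) ∣ 4 * a ^ 3 + 27 * b ^ 2)
    {M : ℕ} (hM : 1 ≤ M) (hqM : ¬ (q : ℤ) ∣ M) {w : ℤ → ℤ}
    (pm : ∀ d, d ≠ 0 → w d = 1 ∨ w d = -1)
    (hwq : ∀ d e : ℤ, ¬ (q : ℤ) ∣ d → ¬ (q : ℤ) ∣ e → (8 * M : ℤ) ∣ e - 1 →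
      w (d * e) = e.sign * jacobiSym e q * w d) :
    ∃ u v : ℤ, FB b r s k u v ≠ 0 ∧ w (FB b r s k u v) = 1 := by
  obtain ⟨u0, v0, u1, v1, hd0, hd1, hJ⟩ := flip_pair hn hq h11 hqa hqk hqD
  have hqI : Prime (q : ℤ) := Nat.prime_iff_prime_int.1 hq
  set F0 : ℤ := FB b r s k u0 v0 with hF0
  set F1 : ℤ := FB b r s k u1 v1 with hF1
  have h0 : F0 ≠ 0 := fun h => hd0 (h ▸ dvd_zero _)
  rcases pm _ h0 with h1 | h1
  · exact ⟨u0, v0, h0, h1⟩
  have hM' : (0 : ℤ) < M := by exact_mod_cast hM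
  have hMne : (M : ℤ) ≠ 0 := hM'.ne'
  have hq2 : ¬ (q : ℤ) ∣ 8 := by
    intro h
    have h5 : q ∣ 8 := by exact_mod_cast h
    have := Nat.le_of_dvd (by norm_num) h5
    omega
  -- Chinese remainders
  have hcop : IsCoprime (8 * M * F0) (q : ℤ) := by
    apply IsCoprime.symm
    rw [Prime.coprime_iff_not_dvd hqI]
    intro h
    rcases hqI.dvd_or_dvd h with h | h
    · rcases hqI.dvd_or_dvd h with h | h
      · exact hq2 h
      · exact hqM h
    · exact hd0 h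
  obtain ⟨al, be, hab⟩ := hcop
  set du : ℤ := al * (8 * M * F0) * (u1 - u0) with hdu
  set dv : ℤ := al * (8 * M * F0) * (v1 - v0) with hdv
  set T : ℤ := 8 * M * |F0| * q with hT
  have hqpos : (0 : ℤ) < q := by exact_mod_cast hq.pos
  have hT1 : 1 ≤ T := by
    have h2 : 0 < |F0| := abs_pos.2 h0
    have : 0 < T := by rw [hT]; positivity
    omega
  have habs : |F0| = F0 * F0.sign := by rw [Int.mul_sign_self, Int.abs_eq_natAbs]
  -- general step
  have step : ∀ e : ℝ, 0 < e → (∀ t x y : ℝ, 0 < t → |x - t * u0| ≤ e * t →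
      |y - t * v0| ≤ e * t → 0 < FR b r s k x y * F0) →
      ∃ u v : ℤ, FB b r s k u v ≠ 0 ∧ w (FB b r s k u v) = 1 := by
    intro e he hcone
    obtain ⟨n, hn'⟩ := exists_nat_gt ((|(du : ℝ)| + |(dv : ℝ)|) / e)
    set t : ℤ := 1 + T * n with ht
    have htn : (n : ℝ) ≤ t := by
      have : (n : ℤ) ≤ t := by
        rw [ht]; nlinarith [Int.natCast_nonneg n]
      exact_mod_cast this
    have htpos : (0 : ℝ) < t := by
      have : 0 < t := by rw [ht]; positivity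
      exact_mod_cast this
    have hdle : |(du : ℝ)| + |(dv : ℝ)| ≤ e * t := by
      have h6 : |(du : ℝ)| + |(dv : ℝ)| < n * e := (div_lt_iff₀ he).1 hn'
      have h7 : (n : ℝ) * e ≤ t * e := mul_le_mul_of_nonneg_right htn he.le
      linarith
    set U : ℤ := t * u0 + du with hU
    set V : ℤ := t * v0 + dv with hV
    have hval := hcone t (U : ℝ) (V : ℝ) htpos (by
      rw [hU]; push_cast
      rw [add_sub_cancel_left]
      linarith [abs_nonneg (dv : ℝ)]) (by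
      rw [hV]; push_cast
      rw [add_sub_cancel_left]
      linarith [abs_nonneg (du : ℝ)])
    rw [FR_cast] at hval
    have hval' : 0 < FB b r s k U V * F0 := by exact_mod_cast hval
    -- modulo `8 M F0`
    have hdv1 : 8 * M * F0 ∣ FB b r s k U V - F0 := by
      rw [hF0]
      refine FB_mod b r s k ?_ ?_
      · refine ⟨F0.sign * q * n * u0 + al * (u1 - u0), ?_⟩
        rw [hU, ht, hT, hdu, habs]; ring
      · refine ⟨F0.sign * q * n * v0 + al * (v1 - v0), ?_⟩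
        rw [hV, ht, hT, hdv, habs]; ring
    -- modulo `q`
    have hdv2 : (q : ℤ) ∣ FB b r s k U V - F1 := by
      rw [hF1]
      refine FB_mod b r s k ?_ ?_
      · refine ⟨8 * M * |F0| * n * u0 - be * (u1 - u0), ?_⟩
        rw [hU, ht, hT, hdu]
        linear_combination (u1 - u0) * hab
      · refine ⟨8 * M * |F0| * n * v0 - be * (v1 - v0), ?_⟩
        rw [hV, ht, hT, hdv]
        linear_combination (v1 - v0) * hab
    obtain ⟨c, hc⟩ := hdv1
    have hF2 : FB b r s k U V = F0 * (1 + 8 * M * c) := by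
      rw [eq_add_of_sub_eq hc]; ring
    set ee : ℤ := 1 + 8 * M * c with hee
    have hq2 : ¬ (q : ℤ) ∣ FB b r s k U V := by
      intro h
      exact hd1 ((Int.dvd_iff_dvd_of_dvd_sub hdv2).1 h)
    have hne : FB b r s k U V ≠ 0 := fun h => hq2 (h ▸ dvd_zero _)
    have hqe : ¬ (q : ℤ) ∣ ee := by
      intro h; apply hq2; rw [hF2]; exact h.mul_left _
    refine ⟨U, V, hne, ?_⟩
    have hpos : 0 < ee := by
      rw [hF2] at hval'
      have h7 : F0 * ee * F0 = F0 ^ 2 * ee := by ring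
      rw [h7] at hval'
      have h8 : 0 < F0 ^ 2 := by positivity
      exact (mul_pos_iff_of_pos_left h8).1 hval'
    have hJe : jacobiSym ee q = -1 := by
      have e1 : jacobiSym (F0 * F1) q = jacobiSym (F0 ^ 2 * ee) q := by
        apply jacobiSym.mod_left'
        refine Int.modEq_iff_dvd.2 ?_
        have : F0 ^ 2 * ee - F0 * F1 = F0 * (FB b r s k U V - F1) := by rw [hF2]; ring
        rw [this]
        exact hdv2.mul_left _
      rw [hJ, jacobiSym.mul_left, jacobiSym.pow_left] at e1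
      rcases jacobiSym.trichotomy F0 q with h | h | h <;> rw [h] at e1 <;> simp at e1 <;> omega
    rw [hF2, hwq _ _ hd0 hqe ⟨c, by rw [hee]; ring⟩, h1, Int.sign_eq_one_of_pos hpos, hJe]
    norm_num
  rcases lt_or_gt_of_ne h0 with hneg | hpos
  · obtain ⟨e, he, _, hc⟩ := cone_n hneg
    refine step e he fun t x y ht hx hy => ?_
    have h2 := hc t x y ht hx hy
    have h3 : (F0 : ℝ) < 0 := by exact_mod_cast hneg
    exact mul_pos_of_neg_of_neg h2 h3
  · obtain ⟨e, he, _, hc⟩ := cone_p hpos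
    refine step e he fun t x y ht hx hy => ?_
    have h2 := hc t x y ht hx hy
    have h3 : (0 : ℝ) < F0 := by exact_mod_cast hpos
    exact mul_pos h2 h3

end Pool.Agent.Helper33.TW
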