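import Pool.Agent.Helper33.TW.ConicMember
import Pool.Agent.Helper33.TW.Primes
import Pool.Agent.Helper8.TW.Count

/-! The count for the conic family. -/

namespace Pool.Agent.Helper33.TW

open Pool.Agent.Helper19.TW

variable {a b r s k : ℤ}

/-- the count from one good pair -/
theorem countB (hn : r ^ 2 + r * s + s ^ 2 = -a * k ^ 2) (hk : k ≠ 0) (ha : a ≠ 0)
    (hroot : ∀ r : ℚ, r ^ 3 + a * r + b ≠ 0)
    {M : ℕ} (hM : 1 ≤ M) {w : ℤ → ℤ} (hw : RootLike M w)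
    (h : ∃ u v : ℤ, FB b r s k u v ≠ 0 ∧ w (FB b r s k u v) = 1) :
    ∃ c : ℝ, 0 < c ∧ ∃ D0 : ℝ, ∀ D : ℝ, D0 ≤ D →
      c * D ^ (1 / 4 : ℝ) / Real.log D ≤
        (Set.ncard {d : ℤ | IsFund d ∧ |(d : ℝ)| ≤ D ∧ w d = 1 ∧
          ∃ P Q : (tw a b d).toAffine.Point, LinearIndependent ℤ ![P, Q]} : ℝ) := by
  obtain ⟨u₁, v₁, h0, h1⟩ := h
  obtain ⟨C, l0, hmem⟩ := memberB hn hk ha hroot hM hw h0 h1
  classical
  have hmem' : ∀ l : ℕ, ∃ d : ℤ, l.Prime → l % 3 = 1 → l0 ≤ l → (IsFund d ∧ w d = 1 ∧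
      (∃ P Q : (tw a b d).toAffine.Point, LinearIndependent ℤ ![P, Q]) ∧ d ≠ 0 ∧ (l : ℤ) ∣ d ∧
        |(d : ℝ)| ≤ C * (l : ℝ) ^ 4) := by
    intro l
    by_cases hl : l.Prime ∧ l % 3 = 1 ∧ l0 ≤ l
    · obtain ⟨d, hd⟩ := hmem l hl.1 hl.2.1 hl.2.2
      exact ⟨d, fun _ _ _ => hd⟩
    · exact ⟨0, fun h1 h2 h3 => absurd ⟨h1, h2, h3⟩ hl⟩
  choose d hd using hmem'
  obtain ⟨c, hc, x₀, hp⟩ := primes3
  obtain ⟨c', hc', D0, hD0⟩ := Pool.Agent.Helper8.TW.count (fun l => l % 3 = 1) 4 (by norm_num)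
    C l0 {d : ℤ | IsFund d ∧ w d = 1 ∧
      ∃ P Q : (tw a b d).toAffine.Point, LinearIndependent ℤ ![P, Q]} d
    (fun l h1 h2 h3 => by
      obtain ⟨e1, e2, e3, e4, e5, e6⟩ := hd l h1 h2 h3
      exact ⟨⟨e1, e2, e3⟩, e4, e5, e6⟩) c hc x₀ hp
  refine ⟨c', hc', D0, fun D hD => ?_⟩
  have h2 := hD0 D hD
  have e : {d : ℤ | IsFund d ∧ |(d : ℝ)| ≤ D ∧ w d = 1 ∧
      ∃ P Q : (tw a b d).toAffine.Point, LinearIndependent ℤ ![P, Q]} =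
      {z : ℤ | z ∈ {d : ℤ | IsFund d ∧ w d = 1 ∧
      ∃ P Q : (tw a b d).toAffine.Point, LinearIndependent ℤ ![P, Q]} ∧ |(z : ℝ)| ≤ D} := by
    ext z
    simp only [Set.mem_setOf_eq]
    tauto
  rw [e]
  have e4 : (1 / ((4 : ℕ) : ℝ)) = (1 / 4 : ℝ) := by norm_num
  rw [e4] at h2
  exact h2

end Pool.Agent.Helper33.TW
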