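import Pool.Agent.Helper33.TW.ConicSign
import Pool.Agent.Helper19.TW.Member2
import Pool.Agent.Helper8.TW.Eisen

/-! One member of the conic family for each large prime `l ≡ 1 (mod 3)`. -/

namespace Pool.Agent.Helper33.TW

open Pool.Agent.Helper19.TW

variable {a b r s k u v : ℤ}

lemma GG_modEq {u v u' v' n : ℤ} (hu : u ≡ u' [ZMOD n]) (hv : v ≡ v' [ZMOD n]) :
    GG b r s k u v ≡ GG b r s k u' v' [ZMOD n] := by
  simp only [GG, N1, N2, qq, QQ]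
  gcongr

lemma qq_modEq {u v u' v' n : ℤ} (hu : u ≡ u' [ZMOD n]) (hv : v ≡ v' [ZMOD n]) :
    qq k u v ≡ qq k u' v' [ZMOD n] := by
  simp only [qq, QQ]
  gcongr

/-- transfer of a good prime to the residue class -/
lemma GoodB.transfer {p : ℕ} {u' v' : ℤ} (h : GoodB a b r s k p u v)
    (hu : u' ≡ u [ZMOD (p : ℤ) ^ 2]) (hv : v' ≡ v [ZMOD (p : ℤ) ^ 2]) :
    GoodB a b r s k p u' v' := by
  have hpp : (p : ℤ) ∣ (p : ℤ) ^ 2 := dvd_pow_self _ two_ne_zero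
  have hu1 : u' ≡ u [ZMOD (p : ℤ)] := hu.of_dvd hpp
  have hv1 : v' ≡ v [ZMOD (p : ℤ)] := hv.of_dvd hpp
  refine ⟨h.hD, ?_, ?_, ?_⟩
  · intro h1
    exact h.hq ((Int.modEq_zero_iff_dvd).1 ((qq_modEq hu1 hv1).symm.trans
      ((Int.modEq_zero_iff_dvd).2 h1)))
  · exact (Int.modEq_zero_iff_dvd).1 ((GG_modEq hu1 hv1).trans ((Int.modEq_zero_iff_dvd).2 h.h1))
  · intro h1
    exact h.h2 ((Int.modEq_zero_iff_dvd).1 ((GG_modEq hu hv).symm.trans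
      ((Int.modEq_zero_iff_dvd).2 h1)))

/-- divisibility by the large prime -/
lemma large_primeB (hn : r ^ 2 + r * s + s ^ 2 = -a * k ^ 2) {l : ℕ} (hl : l.Prime)
    (h3 : ¬ (l : ℤ) ∣ 3) (ha : ¬ (l : ℤ) ∣ a) (hk : ¬ (l : ℤ) ∣ k)
    (h1 : (l : ℤ) ∣ QQ u v) (h2 : ¬ (l : ℤ) ^ 2 ∣ QQ u v) {d m : ℤ}
    (hF : FB b r s k u v = d * m ^ 2) : (l : ℤ) ∣ d := by
  have hlI : Prime (l : ℤ) := Nat.prime_iff_prime_int.1 hl
  have huv : ¬ ((l : ℤ) ∣ u ∧ (l : ℤ) ∣ v) := by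
    rintro ⟨⟨x, hx⟩, ⟨y, hy⟩⟩
    apply h2
    exact ⟨x ^ 2 + x * y + y ^ 2, by rw [hx, hy]; simp only [QQ]; ring⟩
  have hN : ¬ (l : ℤ) ∣ r ^ 2 + r * s + s ^ 2 := by
    rw [hn]
    intro h
    rcases hlI.dvd_or_dvd h with h4 | h4
    · exact ha ((dvd_neg).1 h4)
    · exact hk (hlI.dvd_of_dvd_pow h4)
  have hG : ¬ (l : ℤ) ∣ GG b r s k u v := G_unit hl h3 hN h1 huv
  have hm : ¬ (l : ℤ) ∣ m := by
    intro hm
    have h5 : (l : ℤ) ^ 2 ∣ QQ u v * (k * GG b r s k u v) := by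
      have e : QQ u v * (k * GG b r s k u v) = FB b r s k u v := by simp only [FB, qq]; ring
      rw [e, hF]
      exact Dvd.dvd.mul_left (pow_dvd_pow_of_dvd hm 2) d
    have hc : IsCoprime ((l : ℤ) ^ 2) (k * GG b r s k u v) := by
      apply IsCoprime.pow_left
      refine (Prime.coprime_iff_not_dvd hlI).2 ?_
      intro h4
      rcases hlI.dvd_or_dvd h4 with h6 | h6
      · exact hk h6
      · exact hG h6
    exact h2 (hc.dvd_of_dvd_mul_right h5)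
  have h5 : (l : ℤ) ∣ d * m ^ 2 := by
    rw [← hF]
    have e : FB b r s k u v = QQ u v * (k * GG b r s k u v) := by simp only [FB, qq]; ring
    rw [e]
    exact Dvd.dvd.mul_right h1 _
  rcases hlI.dvd_or_dvd h5 with h6 | h6
  · exact h6
  · exact absurd (hlI.dvd_of_dvd_pow h6) hm

/-- size of the form -/
lemma FB_bound (b r s k : ℤ) : ∃ A : ℝ, 0 ≤ A ∧ ∀ (u v : ℤ) (T : ℝ),
    (u : ℝ) ^ 2 + (v : ℝ) ^ 2 ≤ T → |(FB b r s k u v : ℝ)| ≤ A * T ^ 4 := by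
  set c : ℝ := 2 * (|(r : ℝ)| + |(s : ℝ)|) with hc
  set A : ℝ := 2 * |(k : ℝ)| * (3 * c * (3 * c) * (3 * c + 3 * c) + |(b : ℝ)| * (2 * |(k : ℝ)|) ^ 3)
    with hA
  have hc0 : 0 ≤ c := by positivity
  refine ⟨A, by positivity, ?_⟩
  intro u v T hT
  set S : ℝ := (u : ℝ) ^ 2 + (v : ℝ) ^ 2 with hS
  have hS0 : 0 ≤ S := by positivity
  have hT0 : 0 ≤ T := le_trans hS0 hT
  have huv : |(u : ℝ) * v| ≤ S := by
    rw [abs_le, hS]
    constructor <;> nlinarith [sq_nonneg ((u : ℝ) + v), sq_nonneg ((u : ℝ) - v)]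
  have hAA : |(u : ℝ) ^ 2 - v ^ 2| ≤ S := by
    rw [abs_le, hS]
    constructor <;> nlinarith [sq_nonneg (u : ℝ), sq_nonneg (v : ℝ)]
  have hBB : |2 * (u : ℝ) * v + v ^ 2| ≤ 2 * S := by
    rw [abs_le, hS]
    constructor <;> nlinarith [sq_nonneg ((u : ℝ) + v), sq_nonneg ((u : ℝ) - v),
      sq_nonneg (u : ℝ), sq_nonneg (v : ℝ)]
  have hr := abs_nonneg (r : ℝ)
  have hs := abs_nonneg (s : ℝ)
  have hN1 : |(N1 r s u v : ℝ)| ≤ 3 * c * S := by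
    have e : (N1 r s u v : ℝ) = r * ((u : ℝ) ^ 2 - v ^ 2) - s * (2 * u * v + v ^ 2) := by
      simp only [N1]; push_cast; ring
    rw [e]
    have h1 := abs_sub ((r : ℝ) * ((u : ℝ) ^ 2 - v ^ 2)) (s * (2 * (u : ℝ) * v + v ^ 2))
    rw [abs_mul, abs_mul] at h1
    have h2 : |(r : ℝ)| * |(u : ℝ) ^ 2 - v ^ 2| ≤ |(r : ℝ)| * S := mul_le_mul_of_nonneg_left hAA hr
    have h3 : |(s : ℝ)| * |2 * (u : ℝ) * v + v ^ 2| ≤ |(s : ℝ)| * (2 * S) :=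
      mul_le_mul_of_nonneg_left hBB hs
    rw [hc]
    nlinarith [mul_nonneg hr hS0, mul_nonneg hs hS0]
  have hN2 : |(N2 r s u v : ℝ)| ≤ 3 * c * S := by
    have e : (N2 r s u v : ℝ) = (r + s) * (2 * (u : ℝ) * v + v ^ 2) + s * ((u : ℝ) ^ 2 - v ^ 2) := by
      simp only [N2]; push_cast; ring
    rw [e]
    have h1 := abs_add_le (((r : ℝ) + s) * (2 * (u : ℝ) * v + v ^ 2)) (s * ((u : ℝ) ^ 2 - v ^ 2))
    rw [abs_mul, abs_mul] at h1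
    have h0 := abs_add_le (r : ℝ) s
    have h2 : |(r : ℝ) + s| * |2 * (u : ℝ) * v + v ^ 2| ≤ (|(r : ℝ)| + |(s : ℝ)|) * (2 * S) :=
      mul_le_mul h0 hBB (abs_nonneg _) (by positivity)
    have h3 : |(s : ℝ)| * |(u : ℝ) ^ 2 - v ^ 2| ≤ |(s : ℝ)| * S := mul_le_mul_of_nonneg_left hAA hs
    rw [hc]
    nlinarith [mul_nonneg hr hS0, mul_nonneg hs hS0]
  have hq : |(qq k u v : ℝ)| ≤ 2 * |(k : ℝ)| * S := by
    have e : (qq k u v : ℝ) = k * (S + (u : ℝ) * v) := by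
      simp only [qq, QQ, hS]; push_cast; ring
    rw [e, abs_mul]
    have h1 : |S + (u : ℝ) * v| ≤ 2 * S := by
      have := abs_add_le S ((u : ℝ) * v)
      rw [abs_of_nonneg hS0] at this
      linarith
    calc |(k : ℝ)| * |S + (u : ℝ) * v| ≤ |(k : ℝ)| * (2 * S) :=
          mul_le_mul_of_nonneg_left h1 (abs_nonneg _)
      _ = _ := by ring
  have e : (FB b r s k u v : ℝ) = (qq k u v : ℝ) * (-((N1 r s u v : ℝ) * N2 r s u v *
      ((N1 r s u v : ℝ) + N2 r s u v)) + b * (qq k u v : ℝ) ^ 3) := by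
    simp only [FB, GG]; push_cast; ring
  have h12 : |(N1 r s u v : ℝ) + N2 r s u v| ≤ (3 * c + 3 * c) * S := by
    have := abs_add_le (N1 r s u v : ℝ) (N2 r s u v : ℝ)
    nlinarith
  have hin : |-((N1 r s u v : ℝ) * N2 r s u v * ((N1 r s u v : ℝ) + N2 r s u v)) +
      b * (qq k u v : ℝ) ^ 3| ≤
      (3 * c * (3 * c) * (3 * c + 3 * c) + |(b : ℝ)| * (2 * |(k : ℝ)|) ^ 3) * S ^ 3 := by
    refine (abs_add_le _ _).trans ?_
    rw [abs_neg, abs_mul, abs_mul, abs_mul, abs_pow]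
    have g1 : |(N1 r s u v : ℝ)| * |(N2 r s u v : ℝ)| * |(N1 r s u v : ℝ) + N2 r s u v| ≤
        (3 * c * S) * (3 * c * S) * ((3 * c + 3 * c) * S) := by
      gcongr
    have g2 : |(b : ℝ)| * |(qq k u v : ℝ)| ^ 3 ≤ |(b : ℝ)| * (2 * |(k : ℝ)| * S) ^ 3 := by
      gcongr
    calc _ ≤ (3 * c * S) * (3 * c * S) * ((3 * c + 3 * c) * S) +
          |(b : ℝ)| * (2 * |(k : ℝ)| * S) ^ 3 := add_le_add g1 g2
      _ = _ := by ring
  rw [e, abs_mul]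
  calc _ ≤ (2 * |(k : ℝ)| * S) *
        ((3 * c * (3 * c) * (3 * c + 3 * c) + |(b : ℝ)| * (2 * |(k : ℝ)|) ^ 3) * S ^ 3) := by
        gcongr
    _ = A * S ^ 4 := by rw [hA]; ring
    _ ≤ A * T ^ 4 := by
        have hA0 : 0 ≤ A := by positivity
        gcongr

/-- one member of the family for each large prime `l ≡ 1 (mod 3)` -/
theorem memberB (hn : r ^ 2 + r * s + s ^ 2 = -a * k ^ 2) (hk : k ≠ 0) (ha : a ≠ 0)
    (hroot : ∀ r : ℚ, r ^ 3 + a * r + b ≠ 0)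
    {M : ℕ} (hM : 1 ≤ M) {w : ℤ → ℤ} (hw : RootLike M w) {u₁ v₁ : ℤ}
    (h0 : FB b r s k u₁ v₁ ≠ 0) (h1 : w (FB b r s k u₁ v₁) = 1) :
    ∃ (C : ℝ) (l0 : ℕ), ∀ l : ℕ, l.Prime → l % 3 = 1 → l0 ≤ l → ∃ d : ℤ, IsFund d ∧ w d = 1 ∧
      (∃ P Q : (tw a b d).toAffine.Point, LinearIndependent ℤ ![P, Q]) ∧ d ≠ 0 ∧ (l : ℤ) ∣ d ∧
        |(d : ℝ)| ≤ C * (l : ℝ) ^ 4 := by
  have hD := disc_ne ha hroot
  set F₁ := FB b r s k u₁ v₁ with hF₁
  set L₁ : ℤ := 8 * M * F₁ with hL₁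
  have hM0 : (M : ℤ) ≠ 0 := by positivity
  have hL₁0 : L₁ ≠ 0 := mul_ne_zero (mul_ne_zero (by norm_num) hM0) h0
  obtain ⟨p, hp, hpL, t, hG⟩ := exists_classB hn hk ha hroot hD hL₁0
  have hpI : Prime (p : ℤ) := Nat.prime_iff_prime_int.1 hp
  haveI : Fact p.Prime := ⟨hp⟩
  have hp2 : ¬ (p : ℤ) ∣ 2 := fun h => hpL (h.trans ⟨4 * M * F₁, by rw [hL₁]; ring⟩)
  -- Chinese remainders
  have hcop : IsCoprime L₁ ((p : ℤ) ^ 2) := by
    apply IsCoprime.pow_right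
    exact ((Prime.coprime_iff_not_dvd hpI).2 hpL).symm
  obtain ⟨al, be, hab⟩ := hcop
  have crt : ∀ x y : ℤ, ∃ z : ℤ, z ≡ x [ZMOD L₁] ∧ z ≡ y [ZMOD (p : ℤ) ^ 2] := by
    intro x y
    refine ⟨x * (be * (p : ℤ) ^ 2) + y * (al * L₁), ?_, ?_⟩
    · refine (Int.modEq_iff_dvd).2 ⟨al * (x - y), ?_⟩
      linear_combination (-x) * hab
    · refine (Int.modEq_iff_dvd).2 ⟨be * (y - x), ?_⟩
      linear_combination (-y) * hab
  obtain ⟨uc, huc1, huc2⟩ := crt u₁ t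
  obtain ⟨vc, hvc1, hvc2⟩ := crt v₁ 1
  -- sign
  have hne : u₁ ≠ 0 ∨ v₁ ≠ 0 := by
    by_contra hc
    push Not at hc
    apply h0
    rw [hF₁, hc.1, hc.2]
    simp [FB, qq, QQ]
  obtain ⟨e, he, he1, hcone⟩ : ∃ e : ℝ, 0 < e ∧ e < 1 ∧ ∀ (t : ℝ) (u v : ℤ), 0 < t →
      |(u : ℝ) - t * u₁| ≤ e * t → |(v : ℝ) - t * v₁| ≤ e * t →
      0 < FB b r s k u v * F₁ := by
    rcases lt_or_gt_of_ne h0 with hlt | hgt
    · obtain ⟨e, he, he1, H⟩ := cone_n hlt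
      refine ⟨e, he, he1, fun t u v ht hu hv => ?_⟩
      have := H t u v ht hu hv
      rw [FR_cast] at this
      exact mul_pos_of_neg_of_neg (by exact_mod_cast this) hlt
    · obtain ⟨e, he, he1, H⟩ := cone_p hgt
      refine ⟨e, he, he1, fun t u v ht hu hv => ?_⟩
      have := H t u v ht hu hv
      rw [FR_cast] at this
      exact mul_pos (by exact_mod_cast this) hgt
  set L : ℕ := L₁.natAbs * p ^ 2 with hL
  have hL1 : 1 ≤ L := by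
    rw [hL]
    exact Nat.one_le_iff_ne_zero.2 (mul_ne_zero (Int.natAbs_ne_zero.2 hL₁0)
      (pow_ne_zero 2 hp.ne_zero))
  obtain ⟨C, R, l0, hR, H⟩ := Helper8.TW.eisen uc vc u₁ v₁ hne L hL1 e he he1
  obtain ⟨A, hA0, hA⟩ := FB_bound b r s k
  set C' : ℝ := A * C ^ 4 with hC'
  refine ⟨4 * C', max l0 (a.natAbs + k.natAbs + 4), ?_⟩
  intro l hl hl4 hll
  have hl0 : l0 ≤ l := le_trans (le_max_left _ _) hll
  have hlb := le_trans (le_max_right _ _) hll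
  have hla : ¬ (l : ℤ) ∣ a := prime_not_dvd_of_lt ha (by omega)
  have hlk : ¬ (l : ℤ) ∣ k := prime_not_dvd_of_lt hk (by omega)
  have hl3 : ¬ (l : ℤ) ∣ 3 := prime_not_dvd_of_lt (by norm_num) (by norm_num; omega)
  obtain ⟨u, v, hu, hv, hS1, hS2, hsz, hdu, hdv⟩ := H l hl hl4 hl0
  have hLL : (L : ℤ) = |L₁| * (p : ℤ) ^ 2 := by
    rw [hL]; push_cast; rfl
  have hL₁L : L₁ ∣ (L : ℤ) := by
    rw [hLL]; exact Dvd.dvd.mul_right ((dvd_abs _ _).2 dvd_rfl) _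
  have hpL' : (p : ℤ) ^ 2 ∣ (L : ℤ) := by rw [hLL]; exact Dvd.intro_left _ rfl
  have hu1 : u ≡ u₁ [ZMOD L₁] :=
    (((Int.modEq_iff_dvd).2 hu).symm.of_dvd hL₁L).trans huc1
  have hv1 : v ≡ v₁ [ZMOD L₁] :=
    (((Int.modEq_iff_dvd).2 hv).symm.of_dvd hL₁L).trans hvc1
  have hu2 : u ≡ t [ZMOD (p : ℤ) ^ 2] :=
    (((Int.modEq_iff_dvd).2 hu).symm.of_dvd hpL').trans huc2
  have hv2 : v ≡ 1 [ZMOD (p : ℤ) ^ 2] :=
    (((Int.modEq_iff_dvd).2 hv).symm.of_dvd hpL').trans hvc2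
  have hG' : GoodB a b r s k p u v := hG.transfer hu2 hv2
  -- the value
  set F := FB b r s k u v with hF
  have hFm : L₁ ∣ F - F₁ :=
    FB_mod b r s k ((Int.modEq_iff_dvd).1 hu1.symm) ((Int.modEq_iff_dvd).1 hv1.symm)
  obtain ⟨j, hj⟩ := hFm
  have hFe : F = F₁ * (1 + 8 * M * j) := by
    rw [hL₁] at hj; linear_combination hj
  have hRl : 0 < R * Real.sqrt l := by
    have : (0 : ℝ) < l := by exact_mod_cast hl.pos
    positivity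
  have hFF : 0 < F * F₁ :=
    hcone (R * Real.sqrt l) u v hRl (by rw [← mul_assoc]; exact hdu) (by rw [← mul_assoc]; exact hdv)
  have he0 : 0 < 1 + 8 * M * j := by
    rw [hFe] at hFF
    have : F₁ * (1 + 8 * M * j) * F₁ = F₁ ^ 2 * (1 + 8 * M * j) := by ring
    rw [this] at hFF
    exact (mul_pos_iff_of_pos_left (by positivity)).1 hFF
  have hwF : w F = 1 := by
    rw [hFe, hw.tw F₁ _ h0 ⟨j, by ring⟩, Int.sign_eq_one_of_pos he0, h1, one_mul]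
  have hF0 : F ≠ 0 := by rw [hFe]; exact mul_ne_zero h0 he0.ne'
  obtain ⟨d, m, hdr, hdsq, hr0⟩ := sqfree_part hF0
  have hd0 : d ≠ 0 := hdsq.ne_zero
  have hld : (l : ℤ) ∣ d :=
    large_primeB hn hl hl3 hla hlk hS1 hS2 (hF.symm.trans hdr)
  have hwd : w d = 1 := by rw [← hw.sq d m hd0 hr0, ← hdr]; exact hwF
  have hNr : padicNorm p (m : ℚ) = 1 := by
    refine norm_one' ?_
    rintro ⟨x, hx⟩
    have e1 := hG'.norm_F
    rw [← hF, hdr, hx] at e1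
    have e2 : (((d * (p * x) ^ 2 : ℤ)) : ℚ) = (p : ℚ) * ((p : ℚ) * ((d * x ^ 2 : ℤ) : ℚ)) := by
      push_cast; ring
    rw [e2, padicNorm.mul, padicNorm.mul, padicNorm.padicNorm_p_of_prime] at e1
    have hp1 : (1 : ℚ) < p := by exact_mod_cast hp.one_lt
    have hinv : (p : ℚ)⁻¹ < 1 := inv_lt_one_of_one_lt₀ hp1
    have hinv0 : (0 : ℚ) < (p : ℚ)⁻¹ := inv_pos.2 (by linarith)
    have hle := nint (p := p) (d * x ^ 2)
    have hnn := padicNorm.nonneg (p := p) ((d * x ^ 2 : ℤ) : ℚ)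
    have : (p : ℚ)⁻¹ * padicNorm p ((d * x ^ 2 : ℤ) : ℚ) = 1 := by
      have h3 : (p : ℚ)⁻¹ * ((p : ℚ)⁻¹ * padicNorm p ((d * x ^ 2 : ℤ) : ℚ)) = (p : ℚ)⁻¹ * 1 := by
        rw [mul_one]; exact e1
      exact mul_left_cancel₀ hinv0.ne' h3
    nlinarith
  have hFd : |(d : ℝ)| ≤ |(F : ℝ)| := by
    rw [hdr]; push_cast; rw [abs_mul]
    have : (1 : ℝ) ≤ |(m : ℝ) ^ 2| := by
      rw [abs_pow, sq_abs]
      have : 1 ≤ m ^ 2 := by have := sq_nonneg m; have := pow_ne_zero 2 hr0; omega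
      exact_mod_cast this
    nlinarith [abs_nonneg (d : ℝ)]
  have hbd : |(F : ℝ)| ≤ C' * (l : ℝ) ^ 4 := by
    refine (hA u v _ hsz).trans (le_of_eq ?_)
    rw [hC']; ring
  have hC'0 : 0 ≤ C' * (l : ℝ) ^ 4 := le_trans (abs_nonneg _) hbd
  rcases fund_of_sqfree hdsq with hf | hf
  · refine ⟨d, hf, hwd, conic_rank hn hG' hroot (m := m) ?_ hNr, hd0, hld, ?_⟩
    · rw [← hF, hdr]; push_cast; ring
    · linarith
  · refine ⟨4 * d, hf, ?_, conic_rank hn hG' hroot (m := m / 2) ?_ ?_, by omega,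
      Dvd.dvd.mul_left hld 4, ?_⟩
    · have := hw.sq d 2 hd0 two_ne_zero
      rw [← hwd, ← this]; congr 1; ring
    · rw [← hF, hdr]; push_cast; ring
    · rw [padicNorm.div, hNr]
      have : padicNorm p (2 : ℚ) = 1 := by exact_mod_cast norm_one' hp2
      rw [this]; norm_num
    · push_cast
      rw [abs_mul]
      have : |(4 : ℝ)| = 4 := abs_of_pos (by norm_num)
      rw [this]
      linarith

end Pool.Agent.Helper33.TW
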