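import Pool.Agent.Helper33.TW.ConicFlip
import Pool.Agent.Helper33.TW.ConicMain

/-! A base point of the conic with denominator prime to `q`. -/

namespace Pool.Agent.Helper33.TW

open Pool.Agent.Helper19.TW

/-- division of a norm by a split prime -/
lemma norm_div {q : ℕ} (hq : q.Prime) {x y : ℤ} (hxy : x ^ 2 + x * y + y ^ 2 = q) {r s : ℤ}
    (h : (q : ℤ) ∣ r ^ 2 + r * s + s ^ 2) :
    ∃ r' s' : ℤ, r ^ 2 + r * s + s ^ 2 = q * (r' ^ 2 + r' * s' + s' ^ 2) := by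
  have hqI : Prime (q : ℤ) := Nat.prime_iff_prime_int.1 hq
  have hq0 : (q : ℤ) ≠ 0 := hqI.ne_zero
  have h1 : (q : ℤ) ∣ (s * x - r * y) * (s * x + r * y + s * y) := by
    obtain ⟨c, hc⟩ := h
    refine ⟨s ^ 2 - y ^ 2 * c, ?_⟩
    linear_combination s ^ 2 * hxy - y ^ 2 * hc
  have gen : ∀ A B : ℤ, (q : ℤ) ∣ B → A ^ 2 + A * B + B ^ 2 = (r ^ 2 + r * s + s ^ 2) * q →
      ∃ r' s' : ℤ, r ^ 2 + r * s + s ^ 2 = q * (r' ^ 2 + r' * s' + s' ^ 2) := by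
    intro A B hB hAB
    have hA : (q : ℤ) ∣ A := by
      apply hqI.dvd_of_dvd_pow (n := 2)
      have : A ^ 2 = (r ^ 2 + r * s + s ^ 2) * q - B * (A + B) := by linear_combination hAB
      rw [this]
      exact dvd_sub (Dvd.intro_left _ rfl) (hB.mul_right _)
    obtain ⟨A', rfl⟩ := hA
    obtain ⟨B', rfl⟩ := hB
    refine ⟨A', B', ?_⟩
    have : (q : ℤ) * (r ^ 2 + r * s + s ^ 2) = q * (q * (A' ^ 2 + A' * B' + B' ^ 2)) := by
      linear_combination -hAB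
    exact mul_left_cancel₀ hq0 this
  rcases hqI.dvd_or_dvd h1 with h2 | h2
  · refine gen (r * (x + y) + s * y) (s * x - r * y) h2 ?_
    rw [← hxy]; ring
  · refine gen (r * x - s * y) (s * x + r * y + s * y) h2 ?_
    rw [← hxy]; ring

/-- an inert prime -/
lemma inert {q : ℕ} (hq : q.Prime) (h3 : q % 3 = 2) {r s : ℤ}
    (h : (q : ℤ) ∣ r ^ 2 + r * s + s ^ 2) : (q : ℤ) ∣ r ∧ (q : ℤ) ∣ s := by
  have : Fact q.Prime := ⟨hq⟩
  rw [← ZMod.intCast_zmod_eq_zero_iff_dvd] at h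
  push_cast at h
  have hR : ((r : ZMod q)) ^ 3 = (s : ZMod q) ^ 3 := by linear_combination ((r : ZMod q) - s) * h
  have hp : ∀ R : ZMod q, R ^ (2 * q - 1) = R := by
    intro R
    have h1 : 2 * q - 1 = q + (q - 1) := by have := hq.one_lt; omega
    rw [h1, pow_add, ZMod.pow_card, ← pow_succ', Nat.sub_add_cancel hq.one_lt.le, ZMod.pow_card]
  obtain ⟨j, hj⟩ : ∃ j, 2 * q - 1 = 3 * j := ⟨(2 * q - 1) / 3, by omega⟩
  have hrs : (r : ZMod q) = s := by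
    rw [← hp r, ← hp s, hj, pow_mul, pow_mul, hR]
  have h3' : (3 : ZMod q) ≠ 0 := by
    intro h4
    have h5 : ((3 : ℕ) : ZMod q) = 0 := by exact_mod_cast h4
    rw [ZMod.natCast_eq_zero_iff] at h5
    have := (Nat.prime_dvd_prime_iff_eq hq Nat.prime_three).1 h5
    omega
  have hs0 : (s : ZMod q) = 0 := by
    rw [hrs] at h
    have : 3 * (s : ZMod q) ^ 2 = 0 := by linear_combination h
    exact pow_eq_zero_iff (two_ne_zero) |>.1 ((mul_eq_zero.1 this).resolve_left h3')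
  exact ⟨(ZMod.intCast_zmod_eq_zero_iff_dvd _ _).1 (hrs.trans hs0),
    (ZMod.intCast_zmod_eq_zero_iff_dvd _ _).1 hs0⟩

/-- division of a norm by the square of a prime -/
lemma norm_div2 {q : ℕ} (hq : q.Prime) (h3 : q ≠ 3) {r s : ℤ}
    (h : (q : ℤ) ^ 2 ∣ r ^ 2 + r * s + s ^ 2) :
    ∃ r' s' : ℤ, r ^ 2 + r * s + s ^ 2 = q ^ 2 * (r' ^ 2 + r' * s' + s' ^ 2) := by
  have hqI : Prime (q : ℤ) := Nat.prime_iff_prime_int.1 hq
  have hq0 : (q : ℤ) ≠ 0 := hqI.ne_zero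
  have h1 : (q : ℤ) ∣ r ^ 2 + r * s + s ^ 2 := (dvd_pow_self _ two_ne_zero).trans h
  have hmod : q % 3 = 1 ∨ q % 3 = 2 := by
    have : q % 3 ≠ 0 := by
      intro h0
      exact h3 ((Nat.prime_dvd_prime_iff_eq Nat.prime_three hq).1 (Nat.dvd_of_mod_eq_zero h0)).symm
    omega
  rcases hmod with hm | hm
  · obtain ⟨x, y, hxy⟩ := Helper8.TW.eisen_repr q hq hm
    obtain ⟨r', s', h2⟩ := norm_div hq hxy h1
    have h4 : (q : ℤ) ∣ r' ^ 2 + r' * s' + s' ^ 2 := by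
      rw [h2, pow_two] at h
      exact (mul_dvd_mul_iff_left hq0).1 h
    obtain ⟨r'', s'', h5⟩ := norm_div hq hxy h4
    exact ⟨r'', s'', by rw [h2, h5]; ring⟩
  · obtain ⟨⟨r', hr⟩, ⟨s', hs⟩⟩ := inert hq hm h1
    exact ⟨r', s', by rw [hr, hs]; ring⟩

/-- a base point with denominator prime to `q` -/
lemma descend {a : ℤ} {q : ℕ} (hq : q.Prime) (h3 : q ≠ 3) :
    ∀ (n : ℕ) (r s k : ℤ), k.natAbs ≤ n → k ≠ 0 → r ^ 2 + r * s + s ^ 2 = -a * k ^ 2 →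
      ∃ r' s' k' : ℤ, k' ≠ 0 ∧ ¬ (q : ℤ) ∣ k' ∧ r' ^ 2 + r' * s' + s' ^ 2 = -a * k' ^ 2 := by
  have hqI : Prime (q : ℤ) := Nat.prime_iff_prime_int.1 hq
  have hq0 : (q : ℤ) ≠ 0 := hqI.ne_zero
  intro n
  induction n with
  | zero =>
    intro r s k hk hk0 _
    exact absurd (Int.natAbs_eq_zero.1 (Nat.le_zero.1 hk)) hk0
  | succ n ih =>
    intro r s k hk hk0 hn
    by_cases hqk : (q : ℤ) ∣ k
    · obtain ⟨k', hk'⟩ := hqk
      have hk'0 : k' ≠ 0 := by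
        rintro rfl
        exact hk0 (by rw [hk', mul_zero])
      obtain ⟨r', s', h2⟩ := norm_div2 hq h3 (r := r) (s := s) (by
        rw [hn, hk']
        exact ⟨-a * k' ^ 2, by ring⟩)
      refine ih r' s' k' ?_ hk'0 ?_
      · have h4 : k.natAbs = q * k'.natAbs := by rw [hk', Int.natAbs_mul, Int.natAbs_natCast]
        have h5 : 0 < k'.natAbs := Int.natAbs_pos.2 hk'0
        have h6 := hq.two_le
        nlinarith
      · have : (q : ℤ) ^ 2 * (r' ^ 2 + r' * s' + s' ^ 2) = q ^ 2 * (-a * k' ^ 2) := by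
          rw [← h2, hn, hk']; ring
        exact mul_left_cancel₀ (pow_ne_zero 2 hq0) this
    · exact ⟨r, s, k, hk0, hqk, hn⟩

/-- a rational pair gives a base point -/
lemma pair_base {a b : ℤ} {x₁ x₂ : ℚ} (hne : x₁ ≠ x₂)
    (h : x₁ ^ 3 + a * x₁ + b = x₂ ^ 3 + a * x₂ + b) :
    ∃ r s k : ℤ, k ≠ 0 ∧ r ^ 2 + r * s + s ^ 2 = -a * k ^ 2 ∧ x₁ = r / k ∧ x₂ = s / k := by
  have h1 : x₁ ^ 2 + x₁ * x₂ + x₂ ^ 2 = -a := by
    have : (x₁ - x₂) * (x₁ ^ 2 + x₁ * x₂ + x₂ ^ 2 + a) = 0 := by linear_combination h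
    have := (mul_eq_zero.1 this).resolve_left (sub_ne_zero.2 hne)
    linear_combination this
  have d1 : (x₁.den : ℚ) ≠ 0 := by exact_mod_cast x₁.den_ne_zero
  have d2 : (x₂.den : ℚ) ≠ 0 := by exact_mod_cast x₂.den_ne_zero
  have e1 : x₁ = ((x₁.num * x₂.den : ℤ) : ℚ) / ((x₁.den * x₂.den : ℤ) : ℚ) := by
    push_cast
    rw [mul_div_mul_right _ _ d2]
    exact (Rat.num_div_den x₁).symm
  have e2 : x₂ = ((x₂.num * x₁.den : ℤ) : ℚ) / ((x₁.den * x₂.den : ℤ) : ℚ) := by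
    push_cast
    rw [mul_comm (x₁.den : ℚ), mul_div_mul_right _ _ d1]
    exact (Rat.num_div_den x₂).symm
  have hk : ((x₁.den * x₂.den : ℤ) : ℚ) ≠ 0 := by push_cast; exact mul_ne_zero d1 d2
  have gen : ∀ r s k : ℤ, (k : ℚ) ≠ 0 → x₁ = r / k → x₂ = s / k →
      r ^ 2 + r * s + s ^ 2 = -a * k ^ 2 := by
    intro r s k hk e1 e2
    rw [e1, e2] at h1
    have h3 : ((r ^ 2 + r * s + s ^ 2 : ℤ) : ℚ) = ((-a * k ^ 2 : ℤ) : ℚ) := by
      push_cast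
      field_simp at h1
      linear_combination h1
    exact_mod_cast h3
  exact ⟨x₁.num * x₂.den, x₂.num * x₁.den, x₁.den * x₂.den, by exact_mod_cast hk,
    gen _ _ _ hk e1 e2, e1, e2⟩

end Pool.Agent.Helper33.TW
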