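import Pool.Agent.Helper33.TW.ConicClass
import Pool.Agent.Helper19.TW.Sign
import Pool.Agent.Helper8.TW.Sign

/-! Signs in the conic family. -/

namespace Pool.Agent.Helper33.TW

open Pool.Agent.Helper19.TW Filter Topology

variable {a b r s k u v : ℤ}

/-- the indefinite form `N1 - N2` takes small values -/
lemma small_diff (r s K : ℤ) (hK : 0 < K) :
    ∃ u v : ℤ, (u ≠ 0 ∨ v ≠ 0) ∧ K * |N1 r s u v - N2 r s u v| < QQ u v := by
  rcases eq_or_ne r s with hrs | hrs
  · refine ⟨1, 0, Or.inl one_ne_zero, ?_⟩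
    subst hrs
    simp [N1, N2, QQ]
  · set α : ℝ := r - s with hα
    have hα0 : α ≠ 0 := by
      rw [hα]
      intro h
      apply hrs
      have : (r : ℝ) = s := by linarith
      exact_mod_cast this
    have hn : (0 : ℝ) ≤ 3 * ((r : ℝ) ^ 2 + r * s + s ^ 2) := by
      nlinarith [sq_nonneg ((r : ℝ) + s), sq_nonneg (r : ℝ), sq_nonneg (s : ℝ)]
    set w : ℝ := Real.sqrt (3 * ((r : ℝ) ^ 2 + r * s + s ^ 2)) with hw
    have hw2 : w ^ 2 = 3 * ((r : ℝ) ^ 2 + r * s + s ^ 2) := Real.sq_sqrt hn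
    set θ : ℝ := ((r + 2 * s) + w) / α with hθ
    have hθα : α * θ = (r + 2 * s) + w := by rw [hθ]; field_simp
    have hroot : α * θ ^ 2 - 2 * (r + 2 * s) * θ - (2 * r + s) = 0 := by
      have h1 : α * (α * θ ^ 2 - 2 * (r + 2 * s) * θ - (2 * r + s)) = 0 := by
        have e : α * (α * θ ^ 2 - 2 * (r + 2 * s) * θ - (2 * r + s)) =
            (α * θ) ^ 2 - 2 * (r + 2 * s) * (α * θ) - α * (2 * r + s) := by ring
        rw [e, hθα, hα]
        linear_combination hw2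
      exact (mul_eq_zero.1 h1).resolve_left hα0
    set C : ℝ := |α| * (2 * |θ| + 1) + |2 * ((r : ℝ) + 2 * s)| with hC
    have hC0 : 0 ≤ C := by positivity
    have hK' : (0 : ℝ) < K := by exact_mod_cast hK
    obtain ⟨m, hm⟩ := exists_nat_gt (4 * K * C / 3 + 1)
    have hm1 : (1 : ℝ) < m := by
      have : 0 ≤ 4 * K * C / 3 := by positivity
      linarith
    have hm0 : (0 : ℝ) < m := by linarith
    refine ⟨⌊θ * m⌋, m, Or.inr ?_, ?_⟩
    · have : (m : ℤ) ≠ 0 := by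
        intro h
        have : (m : ℝ) = 0 := by exact_mod_cast h
        linarith
      exact this
    · set u : ℤ := ⌊θ * m⌋ with hu
      have hf1 : (u : ℝ) ≤ θ * m := Int.floor_le _
      have hf2 : θ * m < u + 1 := Int.lt_floor_add_one _
      have hδ : |(u : ℝ) - θ * m| ≤ 1 := by
        rw [abs_le]; constructor <;> linarith
      have hdiff : ((N1 r s u m - N2 r s u m : ℤ) : ℝ) =
          (u - θ * m) * (α * (u + θ * m) - 2 * (r + 2 * s) * m) := by
        have e : ((N1 r s u m - N2 r s u m : ℤ) : ℝ) =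
            α * u ^ 2 - 2 * (r + 2 * s) * u * m - (2 * r + s) * m ^ 2 := by
          simp only [N1, N2, hα]; push_cast; ring
        rw [e]
        linear_combination (m : ℝ) ^ 2 * hroot
      have hu2 : |(u : ℝ)| ≤ |θ| * m + 1 := by
        have h1 : |(u : ℝ)| ≤ |(u : ℝ) - θ * m| + |θ * m| := by
          have := abs_add_le ((u : ℝ) - θ * m) (θ * m)
          rwa [sub_add_cancel] at this
        have h2 : |θ * m| = |θ| * m := by rw [abs_mul, abs_of_pos hm0]
        linarith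
      have hb : |((N1 r s u m - N2 r s u m : ℤ) : ℝ)| ≤ C * m := by
        rw [hdiff, abs_mul]
        have h2 : |α * (u + θ * m) - 2 * (r + 2 * s) * m| ≤ C * m := by
          have h3 : |α * ((u : ℝ) + θ * m) - 2 * (r + 2 * s) * m| ≤
              |α * ((u : ℝ) + θ * m)| + |2 * ((r : ℝ) + 2 * s) * m| := abs_sub _ _
          have h4 : |α * ((u : ℝ) + θ * m)| ≤ |α| * ((2 * |θ| + 1) * m) := by
            rw [abs_mul]
            apply mul_le_mul_of_nonneg_left _ (abs_nonneg _)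
            have h5 := abs_add_le (u : ℝ) (θ * m)
            have h6 : |θ * m| = |θ| * m := by rw [abs_mul, abs_of_pos hm0]
            nlinarith
          have h7 : |2 * ((r : ℝ) + 2 * s) * m| = |2 * ((r : ℝ) + 2 * s)| * m := by
            rw [abs_mul, abs_of_pos hm0]
          rw [hC]
          nlinarith
        calc _ ≤ 1 * (C * m) := mul_le_mul hδ h2 (abs_nonneg _) (by norm_num)
          _ = _ := one_mul _
      have hQ : 3 * (m : ℝ) ^ 2 / 4 ≤ ((QQ u m : ℤ) : ℝ) := by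
        simp only [QQ]; push_cast
        nlinarith [sq_nonneg (2 * (u : ℝ) + m)]
      have hfin : ((K * |N1 r s u m - N2 r s u m| : ℤ) : ℝ) < ((QQ u m : ℤ) : ℝ) := by
        rw [Int.cast_mul, Int.cast_abs]
        have h8 : (K : ℝ) * |((N1 r s u m - N2 r s u m : ℤ) : ℝ)| ≤ K * (C * m) :=
          mul_le_mul_of_nonneg_left hb hK'.le
        have h9 : (K : ℝ) * (C * m) < 3 * (m : ℝ) ^ 2 / 4 := by
          have h10 : 4 * K * C / 3 < m := by linarith
          nlinarith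
        linarith
      exact_mod_cast hfin

/-- both signs occur if the cubic has three real roots -/
lemma both_signs (hn : r ^ 2 + r * s + s ^ 2 = -a * k ^ 2) (hk : k ≠ 0)
    (hD : 4 * a ^ 3 + 27 * b ^ 2 < 0) :
    (∃ u v : ℤ, 0 < FB b r s k u v) ∧ ∃ u v : ℤ, FB b r s k u v < 0 := by
  have ha : a < 0 := by
    by_contra h
    push Not at h
    have : 0 ≤ 4 * a ^ 3 + 27 * b ^ 2 := by positivity
    linarith
  obtain ⟨u, v, huv, hsm⟩ := small_diff r s (-(4 * a)) (by linarith)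
  have hQ := QQ_pos huv
  set q := qq k u v with hq
  have hk1 : 1 ≤ |k| := Int.one_le_abs hk
  have hqabs : QQ u v ≤ |q| := by
    rw [hq, qq, abs_mul, abs_of_pos hQ]
    nlinarith
  have hnq := norm_Nq (u := u) (v := v) hn
  have hdisc := disc_id (b := b) (u := u) (v := v) hn
  set z : ℤ := -(N1 r s u v * N2 r s u v * (N1 r s u v + N2 r s u v)) with hz
  have hG : GG b r s k u v = z + b * q ^ 3 := rfl
  have hF : FB b r s k u v = q * z + b * q ^ 4 := by
    rw [FB, hG]; ring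
  have hF' : FB b r s k (u + 2 * v) (-(2 * u + v)) = 81 * (-(q * z) + b * q ^ 4) := by
    rw [hz, hq]; simp only [FB, GG, qq, QQ, N1, N2]; ring
  -- the main inequality
  have hmain : b ^ 2 * q ^ 6 < z ^ 2 := by
    rw [hG, show b * qq k u v ^ 3 - (z + b * q ^ 3) = -z by rw [hq]; ring] at hdisc
    generalize N1 r s u v = x at *
    generalize N2 r s u v = y at *
    have hx : (2 * x + y) ^ 2 ≤ -(4 * a) * q ^ 2 := by nlinarith [sq_nonneg y]
    have hy : (x + 2 * y) ^ 2 ≤ -(4 * a) * q ^ 2 := by nlinarith [sq_nonneg x]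
    have hd : (-(4 * a) * |x - y|) ^ 2 < q ^ 2 := by
      have h1 : -(4 * a) * |x - y| < |q| := by linarith
      have h2 : 0 ≤ -(4 * a) * |x - y| := by
        have := abs_nonneg (x - y)
        nlinarith
      calc (-(4 * a) * |x - y|) ^ 2 < |q| ^ 2 := pow_lt_pow_left₀ h1 h2 two_ne_zero
        _ = q ^ 2 := sq_abs q
    have hd2 : (-(4 * a)) ^ 2 * (x - y) ^ 2 < q ^ 2 := by
      rwa [mul_pow, sq_abs] at hd
    have h3 : ((x - y) * (2 * x + y) * (x + 2 * y)) ^ 2 ≤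
        (x - y) ^ 2 * (-(4 * a) * q ^ 2) ^ 2 := by
      have h4 : (2 * x + y) ^ 2 * (x + 2 * y) ^ 2 ≤ (-(4 * a) * q ^ 2) * (-(4 * a) * q ^ 2) :=
        mul_le_mul hx hy (sq_nonneg _) (le_trans (sq_nonneg _) hx)
      calc _ = (x - y) ^ 2 * ((2 * x + y) ^ 2 * (x + 2 * y) ^ 2) := by ring
        _ ≤ (x - y) ^ 2 * ((-(4 * a) * q ^ 2) * (-(4 * a) * q ^ 2)) :=
            mul_le_mul_of_nonneg_left h4 (sq_nonneg _)
        _ = _ := by ring
    have hq2 : 0 < q ^ 2 := by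
      have := sq_nonneg ((-(4 * a)) * (x - y))
      nlinarith
    have h5 : (x - y) ^ 2 * (-(4 * a) * q ^ 2) ^ 2 < q ^ 6 := by
      have e : (x - y) ^ 2 * (-(4 * a) * q ^ 2) ^ 2 =
        ((-(4 * a)) ^ 2 * (x - y) ^ 2) * q ^ 4 := by ring
      have e2 : q ^ 6 = q ^ 2 * q ^ 4 := by ring
      rw [e, e2]
      exact mul_lt_mul_of_pos_right hd2 (by nlinarith)
    have h6 : q ^ 6 ≤ -(4 * a ^ 3 + 27 * b ^ 2) * q ^ 6 := by
      have : 0 ≤ q ^ 6 := by positivity
      nlinarith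
    have h7 : ((x - y) * (2 * x + y) * (x + 2 * y)) ^ 2 < -(4 * a ^ 3 + 27 * b ^ 2) * q ^ 6 := by
      linarith
    rw [hdisc] at h7
    have e3 : (-z) ^ 2 = z ^ 2 := by ring
    rw [e3] at h7
    nlinarith
  have hqne : q ≠ 0 := qq_ne hk huv
  have hq2 : 0 < q ^ 2 := by positivity
  have hbig : (b * q ^ 4) ^ 2 < (q * z) ^ 2 := by
    have e1 : (b * q ^ 4) ^ 2 = (b ^ 2 * q ^ 6) * q ^ 2 := by ring
    have e2 : (q * z) ^ 2 = z ^ 2 * q ^ 2 := by ring
    rw [e1, e2]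
    exact mul_lt_mul_of_pos_right hmain hq2
  have habs : |b * q ^ 4| < |q * z| := sq_lt_sq.1 hbig
  rcases lt_or_ge 0 (q * z) with h | h
  · rw [abs_of_pos h, abs_lt] at habs
    exact ⟨⟨u, v, by rw [hF]; linarith [habs.1]⟩, ⟨u + 2 * v, -(2 * u + v), by
      rw [hF']; linarith [habs.2]⟩⟩
  · rw [abs_of_nonpos h, abs_lt] at habs
    exact ⟨⟨u + 2 * v, -(2 * u + v), by rw [hF']; linarith [habs.1]⟩, ⟨u, v, by
      rw [hF]; linarith [habs.2]⟩⟩

/-- the form of degree 8 over the reals -/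
def FR (b r s k : ℤ) (x y : ℝ) : ℝ :=
  k * (x ^ 2 + x * y + y ^ 2) *
    (-((r * (x ^ 2 - y ^ 2) - s * (2 * x * y + y ^ 2)) *
      (r * (2 * x * y + y ^ 2) + s * (x ^ 2 - y ^ 2) + s * (2 * x * y + y ^ 2)) *
      ((r * (x ^ 2 - y ^ 2) - s * (2 * x * y + y ^ 2)) +
        (r * (2 * x * y + y ^ 2) + s * (x ^ 2 - y ^ 2) + s * (2 * x * y + y ^ 2)))) +
      b * (k * (x ^ 2 + x * y + y ^ 2)) ^ 3)

lemma FR_cast (b r s k u v : ℤ) : FR b r s k u v = ((FB b r s k u v : ℤ) : ℝ) := by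
  simp only [FR, FB, GG, N1, N2, qq, QQ]; push_cast; ring

lemma FR_cont (b r s k : ℤ) : Continuous fun p : ℝ × ℝ => FR b r s k p.1 p.2 := by
  unfold FR; fun_prop

lemma FR_hom (b r s k : ℤ) (t x y : ℝ) : FR b r s k (t * x) (t * y) = t ^ 8 * FR b r s k x y := by
  unfold FR; ring

/-- positive cone -/
lemma cone_p (h : 0 < FB b r s k u v) :
    ∃ e : ℝ, 0 < e ∧ e < 1 ∧ ∀ t x y : ℝ, 0 < t → |x - t * u| ≤ e * t → |y - t * v| ≤ e * t →
      0 < FR b r s k x y :=
  Helper8.TW.cone_pos (FR b r s k) (FR_cont b r s k) 8 (FR_hom b r s k) u v (by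
    rw [FR_cast]; exact_mod_cast h)

/-- negative cone -/
lemma cone_n (h : FB b r s k u v < 0) :
    ∃ e : ℝ, 0 < e ∧ e < 1 ∧ ∀ t x y : ℝ, 0 < t → |x - t * u| ≤ e * t → |y - t * v| ≤ e * t →
      FR b r s k x y < 0 := by
  obtain ⟨e, h1, h2, h3⟩ := Helper8.TW.cone_pos (fun x y => -FR b r s k x y)
    (FR_cont b r s k).neg 8 (fun t x y => by rw [FR_hom]; ring) u v (by
    rw [FR_cast]
    have : ((FB b r s k u v : ℤ) : ℝ) < 0 := by exact_mod_cast h
    linarith)
  exact ⟨e, h1, h2, fun t x y ht hx hy => by have := h3 t x y ht hx hy; linarith⟩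

/-- the value modulo `T` -/
lemma FB_mod (b r s k : ℤ) {T u v u' v' : ℤ} (hu : T ∣ u' - u) (hv : T ∣ v' - v) :
    T ∣ FB b r s k u' v' - FB b r s k u v := by
  have h2 : FB b r s k u v ≡ FB b r s k u' v' [ZMOD T] := by
    have h3 : u ≡ u' [ZMOD T] := Int.modEq_iff_dvd.2 hu
    have h4 : v ≡ v' [ZMOD T] := Int.modEq_iff_dvd.2 hv
    simp only [FB, GG, N1, N2, qq, QQ]
    gcongr
  exact Int.modEq_iff_dvd.1 h2

/-- with three real roots both signs of a root number like function occur -/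
theorem baseB (hn : r ^ 2 + r * s + s ^ 2 = -a * k ^ 2) (hk : k ≠ 0)
    (hroot : ∀ r : ℚ, r ^ 3 + a * r + b ≠ 0)
    (hD : 4 * a ^ 3 + 27 * b ^ 2 < 0) {M : ℕ} (hM : 1 ≤ M) {w : ℤ → ℤ} (hw : RootLike M w) :
    ∃ u v : ℤ, FB b r s k u v ≠ 0 ∧ w (FB b r s k u v) = 1 := by
  set F0 : ℤ := FB b r s k 1 0 with hF0
  have h0 : F0 ≠ 0 := mul_ne_zero (qq_ne hk (Or.inl one_ne_zero))
    (GG_ne hn hk hroot (Or.inl one_ne_zero))
  rcases hw.pm _ h0 with h1 | h1
  · exact ⟨1, 0, h0, h1⟩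
  obtain ⟨⟨up, vp, hp⟩, ⟨um, vm, hm⟩⟩ := both_signs (b := b) hn hk hD
  have hM' : (0 : ℤ) < M := by exact_mod_cast hM
  have hMne : (M : ℤ) ≠ 0 := hM'.ne'
  -- general step
  have step : ∀ U V : ℤ, (∃ e : ℝ, 0 < e ∧ ∀ t x y : ℝ, 0 < t → |x - t * U| ≤ e * t →
      |y - t * V| ≤ e * t → FR b r s k x y * F0 < 0) →
      ∃ u v : ℤ, FB b r s k u v ≠ 0 ∧ w (FB b r s k u v) = 1 := by
    intro U V ⟨e, he, hcone⟩
    obtain ⟨n, hn'⟩ := exists_nat_gt (1 / e)
    have hn0 : (0 : ℝ) < n := lt_trans (by positivity) hn'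
    have hnpos : 0 < n := by exact_mod_cast hn0
    set T : ℤ := 8 * M * |F0| * n with hT
    have hT1 : (n : ℤ) ≤ T := by
      have h2 : 1 ≤ |F0| := Int.one_le_abs h0
      have h3 : (0 : ℤ) ≤ n := Int.natCast_nonneg n
      have h4 : (1 : ℤ) ≤ 8 * M * |F0| := by nlinarith
      calc (n : ℤ) = 1 * n := (one_mul _).symm
        _ ≤ 8 * M * |F0| * n := mul_le_mul_of_nonneg_right h4 h3
    have hT1' : (n : ℝ) ≤ T := by exact_mod_cast hT1
    have hTpos : (0 : ℝ) < T := by linarith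
    have hval := hcone T ((1 + T * U : ℤ) : ℝ) ((0 + T * V : ℤ) : ℝ) hTpos (by
      push_cast
      rw [add_sub_cancel_right, abs_one]
      have h5 : 1 / e * e ≤ T * e := mul_le_mul_of_nonneg_right (by linarith) he.le
      rw [one_div, inv_mul_cancel₀ he.ne'] at h5
      linarith) (by
      push_cast
      rw [zero_add, sub_self, abs_zero]
      positivity)
    rw [FR_cast] at hval
    have hval' : FB b r s k (1 + T * U) (0 + T * V) * F0 < 0 := by exact_mod_cast hval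
    have hdv : T ∣ FB b r s k (1 + T * U) (0 + T * V) - F0 := by
      rw [hF0]
      exact FB_mod b r s k ⟨U, by ring⟩ ⟨V, by ring⟩
    obtain ⟨c, hc⟩ := hdv
    have hF1 : FB b r s k (1 + T * U) (0 + T * V) = F0 * (1 + 8 * M * (F0.sign * n * c)) := by
      have h6 : |F0| = F0 * F0.sign := by rw [Int.mul_sign_self, Int.abs_eq_natAbs]
      rw [eq_add_of_sub_eq hc, hT, h6]; ring
    set ee : ℤ := 1 + 8 * M * (F0.sign * n * c) with hee
    have hne : FB b r s k (1 + T * U) (0 + T * V) ≠ 0 := by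
      intro h; rw [h] at hval'; simp at hval'
    refine ⟨1 + T * U, 0 + T * V, hne, ?_⟩
    have hneg : ee < 0 := by
      rw [hF1] at hval'
      have h7 : F0 * ee * F0 = F0 ^ 2 * ee := by ring
      rw [h7] at hval'
      have h8 : 0 < F0 ^ 2 := by positivity
      by_contra h9
      push Not at h9
      have := mul_nonneg h8.le h9
      linarith
    rw [hF1, hw.tw _ _ h0 ⟨F0.sign * n * c, by rw [hee]; ring⟩, h1,
      Int.sign_eq_neg_one_of_neg hneg]
    norm_num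
  rcases lt_or_gt_of_ne h0 with hneg | hpos
  · obtain ⟨e, he, _, hc⟩ := cone_p hp
    refine step up vp ⟨e, he, fun t x y ht hx hy => ?_⟩
    have h2 := hc t x y ht hx hy
    have h3 : (F0 : ℝ) < 0 := by exact_mod_cast hneg
    exact mul_neg_of_pos_of_neg h2 h3
  · obtain ⟨e, he, _, hc⟩ := cone_n hm
    refine step um vm ⟨e, he, fun t x y ht hx hy => ?_⟩
    have h2 := hc t x y ht hx hy
    have h3 : (0 : ℝ) < F0 := by exact_mod_cast hpos
    exact mul_neg_of_neg_of_pos h2 h3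

end Pool.Agent.Helper33.TW
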